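import Pool.Agent.Lib.MP_3ecc11_lc.Refl

set_option autoImplicit false
set_option linter.unusedVariables false

namespace Pool.Agent.Lib.TV19

open Pool.Agent.Lib.MP_3ecc11_lc

/-- `t` is above `v` (or equal) in the time tree -/
def Anc (a b : ℤ → ℤ) (t v : ℤ) : Prop := a t < v ∧ v < b t

/-- `u` is a child of `t` in the time tree -/
def Child (a b : ℤ → ℤ) (t u : ℤ) : Prop := (a u = t ∧ b u = b t) ∨ (b u = t ∧ a u = a t)

/-- the split game: time tree, states, transitions, tops and items -/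
structure Sys where
  L : ℤ
  R : ℤ
  a : ℤ → ℤ
  b : ℤ → ℤ
  P : ℤ → ℤ → ℤ
  Q : ℤ → ℤ → ℤ
  top : ℤ → ℤ → ℤ
  item : ℤ → ℤ → ℤ
  T : Lam L R a b
  lam : ∀ t, L < t → t < R → Lam (a t) (b t) (P t) (Q t)
  trR : ∀ t u, L < t → t < R → L < u → u < R → a u = t → b u = b t →
    ∃ W, Side (b t) t (P t) (Q t) (P u) (Q u) W
  trL : ∀ t u, L < t → t < R → L < u → u < R → b u = t → a u = a t →
    ∃ W, SideL (a t) t (P t) (Q t) (P u) (Q u) W
  tp : ∀ u v, L < u → u ≤ v → v < R →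
    u ≤ top u v ∧ top u v ≤ v ∧ a (top u v) < u ∧ v < b (top u v)
  i1 : ∀ u v, L < u → u < v → v < R → u ≤ item u v ∧ item u v < v ∧
    (top u v = item u v ∨ top u v = item u v + 1)
  i2 : ∀ u v u' v', L < u → u ≤ u' → u' ≤ item u v → item u v < v' → v' ≤ v → v < R →
    item u' v' = item u v

/-- a link: time, lower end, loser, upper end -/
structure Lnk where
  t : ℤ
  lo : ℤ
  m : ℤ
  hi : ℤ
deriving DecidableEq

namespace Sys

variable (S : Sys)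

def Key (v : ℤ) : Prop := S.L < v ∧ v < S.R

/-- `c` lies on the access path at time `t` -/
def Aff (t c : ℤ) : Prop :=
  (t < c ∧ c < S.b t ∧ S.P t c ≤ t) ∨ (c < t ∧ S.a t < c ∧ t ≤ S.Q t c)

def IsLink (x : Lnk) : Prop :=
  S.Key x.t ∧ S.Aff x.t x.m ∧ ∃ u, S.Key u ∧ Child S.a S.b x.t u ∧ Anc S.a S.b u x.m ∧
    S.P u x.m = x.lo ∧ S.Q u x.m = x.hi ∧ S.a u < x.lo ∧ x.hi < S.b u

def w (x : Lnk) : ℤ := S.top x.lo x.hi
def e (x : Lnk) : ℤ := if S.w x < x.m then S.top x.m x.hi else S.top x.lo x.m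
def g (x : Lnk) : ℤ := if S.w x < x.m then S.item x.m x.hi else S.item x.lo x.m

def PLink (d : ℤ → ℤ → ℕ) (x : Lnk) : Prop :=
  S.IsLink x ∧ S.w x ≠ x.m ∧ d x.t (S.w x) < d (S.w x) (S.e x)

def FLink (d : ℤ → ℤ → ℕ) (x : Lnk) : Prop :=
  S.IsLink x ∧ S.w x ≠ x.m ∧ d (S.w x) (S.e x) < d x.t (S.w x)

/-- same incidence class -/
def Same (d : ℤ → ℤ → ℕ) (x y : Lnk) : Prop :=
  (S.w x < x.m ↔ S.w y < y.m) ∧ d (S.w x) (S.e x) = d (S.w y) (S.e y) ∧
    d (S.e x) (S.e y) < d (S.w x) (S.e x) ∧ d x.t (S.e x) = d y.t (S.e y)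

/-- the sets of items touched at each time -/
def Items (A : ℤ → Finset ℤ) : Prop :=
  ∀ t c, S.Key t → S.Aff t c →
    (S.Q t c < S.b t → S.item c (S.Q t c) ∈ A t) ∧ (S.a t < S.P t c → S.item (S.P t c) c ∈ A t)

/-- the part of the hierarchy used for F-links -/
structure Ultra (d : ℤ → ℤ → ℕ) : Prop where
  d0 : ∀ u v, S.Key u → S.Key v → d u v = 0 → u = v
  sym : ∀ u v, S.Key u → S.Key v → d u v = d v u
  d1 : ∀ u v w, S.Key u → S.Key v → S.Key w → d u w ≤ max (d u v) (d v w)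
  d2 : ∀ u v w, S.Key u → S.Key v → S.Key w → d u v = d u w → 0 < d u v → d v w < d u v
  d3 : ∀ u v w, S.Key u → Anc S.a S.b u v → Anc S.a S.b v w → d u v ≤ d u w ∧ d v w ≤ d u w
  d6 : ∀ u k, S.Key u → ∃ M, S.Key M ∧ d u M ≤ k ∧ ∀ v, S.Key v → d u v ≤ k → Anc S.a S.b M v

end Sys

end Pool.Agent.Lib.TV19
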