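import Pool.Agent.Lib.TV19.Sec0

set_option autoImplicit false
set_option linter.unusedVariables false

namespace Pool.Agent.Lib.TV19

open Pool.Agent.Lib.MP_3ecc11_lc

namespace Sys

variable {S : Sys}

theorem IsLink.geoW {x : Lnk} (h : S.IsLink x) :
    S.Key (S.w x) ∧ x.lo ≤ S.w x ∧ S.w x ≤ x.hi ∧ S.a (S.w x) < x.lo ∧ x.hi < S.b (S.w x) ∧
      Anc S.a S.b x.t (S.w x) ∧ x.t ≠ S.w x := by
  obtain ⟨kt, a1, a2, a3, a4, a5, -⟩ := h.basic
  have p := kt.pl
  have t := S.tp x.lo x.hi (by omega) (by omega) (by omega)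
  unfold w Key Anc
  omega

theorem IsLink.geo {x : Lnk} (h : S.IsLink x) (ne : S.w x ≠ x.m) :
    S.Key (S.e x) ∧ Anc S.a S.b (S.w x) (S.e x) ∧ S.w x ≠ S.e x ∧
      (S.e x = S.g x ∨ S.e x = S.g x + 1) ∧
      ((S.w x < x.m ∧ x.m ≤ S.e x ∧ S.e x ≤ x.hi ∧ S.a (S.e x) < x.m ∧ x.hi < S.b (S.e x) ∧
          x.m ≤ S.g x ∧ S.g x < x.hi ∧ S.g x = S.item x.m x.hi) ∨
        (x.m < S.w x ∧ x.lo ≤ S.e x ∧ S.e x ≤ x.m ∧ S.a (S.e x) < x.lo ∧ x.m < S.b (S.e x) ∧
          x.lo ≤ S.g x ∧ S.g x < x.m ∧ S.g x = S.item x.lo x.m)) := by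
  obtain ⟨kt, a1, a2, a3, a4, a5, -⟩ := h.basic
  obtain ⟨kw, b1, b2, b3, b4, -⟩ := h.geoW
  have p := kt.pl
  by_cases c : S.w x < x.m
  · have t := S.tp x.m x.hi (by omega) (by omega) (by omega)
    have i := S.i1 x.m x.hi (by omega) (by omega) (by omega)
    have e1 : S.e x = S.top x.m x.hi := by unfold e; rw [if_pos c]
    have e2 : S.g x = S.item x.m x.hi := by unfold g; rw [if_pos c]
    rw [← e1] at t i
    rw [← e2] at i
    unfold Key Anc
    omega
  · have t := S.tp x.lo x.m (by omega) (by omega) (by omega)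
    have i := S.i1 x.lo x.m (by omega) (by omega) (by omega)
    have e1 : S.e x = S.top x.lo x.m := by unfold e; rw [if_neg c]
    have e2 : S.g x = S.item x.lo x.m := by unfold g; rw [if_neg c]
    rw [← e1] at t i
    rw [← e2] at i
    unfold Key Anc
    omega

/-- the loser of a link keeps its interval while the interval is inside the piece -/
theorem IsLink.frozen {x : Lnk} (h : S.IsLink x) {s : ℤ} (H : Anc S.a S.b x.t s) (ne : x.t ≠ s)
    (h1 : S.a s < x.lo) (h2 : x.hi < S.b s) : S.P s x.m = x.lo ∧ S.Q s x.m = x.hi := by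
  obtain ⟨kt, a1, a2, -⟩ := h.basic
  obtain ⟨-, -, u, ku, hch, hm, e1, e2, e3, e4⟩ := h
  obtain ⟨v, v1, v2, v3, v4⟩ := exists_child S.T kt.1 kt.2 H ne
  have kv : S.Key v := ⟨v1, v2⟩
  have e : u = v := child_uniq S.T kt.1 kt.2 ku.1 ku.2 v1 v2 hch v3 hm
    (kv.trans v4 (by unfold Anc; omega))
  subst e
  have := freeze ku v4 hm (by omega) (by omega)
  omega

theorem IsLink.noaff {x : Lnk} (h : S.IsLink x) {s v : ℤ} (H : Anc S.a S.b x.t s) (ne : x.t ≠ s)
    (G : Anc S.a S.b s (S.w x)) (ne' : s ≠ S.w x) (v1 : x.lo < v) (v2 : v < x.hi) :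
    ¬ S.Aff s v := by
  obtain ⟨kt, a1, a2, -⟩ := h.basic
  obtain ⟨kw, b1, b2, b3, b4, -⟩ := h.geoW
  have ks := kt.of_anc H
  have su := ks.sub G
  have o := ks.out G ne'
  have f := h.frozen H ne (by omega) (by omega)
  exact Sys.noaff (c := x.m) ks (by unfold Anc; omega) (by omega) (by omega) (by omega)

theorem IsLink.disj_aux {x y : Lnk} (h : S.IsLink x) (k : S.IsLink y) (e : x.t = y.t)
    (lt : x.m < y.m) : x.hi ≤ y.lo := by
  have kt := h.1
  have p := kt.pl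
  rcases h.side with c | c
  · obtain ⟨a1, a2, a3, a4, a5, a6, a7, a8, a9, u, ku, u1, u2, u3, u4, u5, u6⟩ := h.right c
    obtain ⟨b1, b2, b3, b4, b5, b6, b7, b8, b9, v, kv, v1, v2, v3, v4, v5, v6⟩ :=
      k.right (by omega)
    rw [← e] at b1 b4 b5 b6 b7 b8 b9 v1 v2 v3
    have uv : u = v := by
      have := ku.pl; have := kv.pl
      exact ku.antisymm (by unfold Anc; omega) (by unfold Anc; omega)
    subst uv
    rcases lt_trichotomy y.lo x.m with d | d | d
    · have := kt.lam.l2 y.lo x.m (by omega) (by omega) d (by omega)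
      omega
    · rw [d] at v3; omega
    · by_contra hc
      have := kt.lam.l2 x.m y.lo (by omega) (by omega) d (by omega)
      omega
  · rcases k.side with c' | c'
    · have := h.left c
      have := k.right c'
      omega
    obtain ⟨a1, a2, a3, a4, a5, a6, a7, a8, a9, u, ku, u1, u2, u3, u4, u5, u6⟩ := h.left c
    obtain ⟨b1, b2, b3, b4, b5, b6, b7, b8, b9, v, kv, v1, v2, v3, v4, v5, v6⟩ := k.left c'
    rw [← e] at b1 b4 b5 b6 b7 b8 b9 v1 v2 v3
    have uv : u = v := by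
      have := ku.pl; have := kv.pl
      exact ku.antisymm (by unfold Anc; omega) (by unfold Anc; omega)
    subst uv
    rcases lt_trichotomy x.hi y.m with d | d | d
    · by_contra hc
      have := kt.lam.l1 y.m x.hi (by omega) (by omega) (by omega) d
      omega
    · rw [d] at u3; omega
    · have := kt.lam.l1 x.hi y.m (by omega) (by omega) (by omega) d
      omega

theorem IsLink.ext {x y : Lnk} (h : S.IsLink x) (k : S.IsLink y) (e : x.t = y.t)
    (e' : x.m = y.m) : x = y := by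
  obtain ⟨kt, -, u, ku, hch, hm, e1, e2, -⟩ := h
  obtain ⟨-, -, v, kv, hch', hm', f1, f2, -⟩ := k
  rw [← e] at hch'
  rw [← e'] at hm' f1 f2
  have uv : u = v := child_uniq S.T kt.1 kt.2 ku.1 ku.2 kv.1 kv.2 hch hch' hm hm'
  subst uv
  cases x; cases y
  simp only [Lnk.mk.injEq] at *
  omega

/-- links at one time have disjoint intervals -/
theorem IsLink.disj {x y : Lnk} (h : S.IsLink x) (k : S.IsLink y) (e : x.t = y.t) :
    x = y ∨ x.hi ≤ y.lo ∨ y.hi ≤ x.lo := by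
  rcases lt_trichotomy x.m y.m with c | c | c
  · exact Or.inr (Or.inl (h.disj_aux k e c))
  · exact Or.inl (h.ext k e c)
  · exact Or.inr (Or.inr (k.disj_aux h e.symm c))

theorem exists_owner {t γ : ℤ} (ht : S.Key t) (g1 : S.a t < γ) (g2 : γ + 1 < S.b t) :
    ∃ c, Anc S.a S.b t c ∧ S.P t c ≤ γ ∧ γ < S.Q t c ∧
      (S.P t c = S.a t ∨ S.Q t c = S.b t ∨ S.item (S.P t c) (S.Q t c) ≠ γ) ∧
      (γ < c → S.a t < S.P t c ∧ S.item (S.P t c) c = γ) ∧
      (c ≤ γ → S.Q t c < S.b t ∧ S.item c (S.Q t c) = γ) := by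
  classical
  have p := ht.pl
  obtain ⟨r, r1, r2, r3, r4⟩ := exists_top ht.lam (u := S.a t + 1) (v := S.b t - 1) (by omega)
    (by omega) (by omega)
  have pr := ht.lam.pl r (by omega) (by omega)
  obtain ⟨c, hc, mn⟩ := Finset.exists_min_image ((Finset.Ioo (S.a t) (S.b t)).filter
    (fun c => S.P t c ≤ γ ∧ γ < S.Q t c ∧
      (S.P t c = S.a t ∨ S.Q t c = S.b t ∨ S.item (S.P t c) (S.Q t c) ≠ γ)))
    (fun c => S.Q t c - S.P t c) ⟨r, by
      rw [Finset.mem_filter, Finset.mem_Ioo]; omega⟩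
  simp only [Finset.mem_filter, Finset.mem_Ioo] at hc mn
  have pc := ht.lam.pl c hc.1.1 hc.1.2
  refine ⟨c, hc.1, hc.2.1, hc.2.2.1, hc.2.2.2, fun k => ?_, fun k => ?_⟩
  · by_cases at1 : S.P t c + 1 = c
    · have := S.i1 (S.P t c) c (by omega) (by omega) (by omega)
      omega
    · obtain ⟨k, k1, k2, k3, k4⟩ := exists_top ht.lam (u := S.P t c + 1) (v := c - 1) (by omega)
        (by omega) (by omega)
      have l1 := ht.lam.l1 c k hc.1.1 hc.1.2 (by omega) (by omega)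
      have e1 : S.P t k = S.P t c := by omega
      have e2 : S.Q t k = c := by omega
      have := mn k
      rw [e1, e2] at this
      omega
  · by_cases at1 : c + 1 = S.Q t c
    · have := S.i1 c (S.Q t c) (by omega) (by omega) (by omega)
      omega
    · obtain ⟨k, k1, k2, k3, k4⟩ := exists_top ht.lam (u := c + 1) (v := S.Q t c - 1) (by omega)
        (by omega) (by omega)
      have l2 := ht.lam.l2 c k hc.1.1 hc.1.2 (by omega) (by omega)
      have e1 : S.P t k = c := by omega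
      have e2 : S.Q t k = S.Q t c := by omega
      have := mn k
      rw [e1, e2] at this
      omega

theorem ts_aux {A : ℤ → Finset ℤ} (hA : S.Items A) {t0 t1 s γ : ℤ} (h0 : S.Key t0)
    (H0 : Anc S.a S.b t0 t1) (H1 : Anc S.a S.b t1 s) (ne : t1 ≠ s) (g1 : S.a s < γ)
    (g2 : γ + 1 < S.b s) (no : ∀ t, Anc S.a S.b t0 t → Anc S.a S.b t t1 → γ ∉ A t) :
    ∃ c, Anc S.a S.b t0 c ∧ S.P t0 c ≤ γ ∧ γ < S.Q t0 c ∧
      (S.P t0 c = S.a t0 ∨ S.Q t0 c = S.b t0 ∨ S.item (S.P t0 c) (S.Q t0 c) ≠ γ) ∧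
      ∀ t v, Anc S.a S.b t0 t → Anc S.a S.b t t1 → S.P t0 c < v → v < S.Q t0 c → ¬ S.Aff t v := by
  have k1 := h0.of_anc H0
  have ks := k1.of_anc H1
  have su := h0.sub (h0.trans H0 H1)
  obtain ⟨c, c0, c1, c2, c3, c4, c5⟩ := exists_owner (γ := γ) h0 (by omega) (by omega)
  have pc := h0.lam.pl c c0.1 c0.2
  have p0 := h0.pl
  have out : ∀ r, Anc S.a S.b t0 r → Anc S.a S.b r t1 → Anc S.a S.b r c → S.P r c = S.P t0 c →
      S.Q r c = S.Q t0 c → (γ < c → S.a r < S.P t0 c) → (c ≤ γ → S.Q t0 c < S.b r) →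
      ¬ S.Aff r c ∧ (r < S.P t0 c ∨ S.Q t0 c < r) := by
    intro r r0 r1 rc e1 e2 e3 e4
    have kr := h0.of_anc r0
    have na : ¬ S.Aff r c := by
      intro af
      have := hA r c kr af
      rw [e1, e2] at this
      apply no r r0 r1
      rcases lt_or_ge γ c with k | k
      · rw [← (c4 k).2]; exact this.2 (e3 k)
      · rw [← (c5 k).2]; exact this.1 (e4 k)
    have nc : r ≠ c := by
      rintro rfl
      have rs := kr.trans r1 H1
      have ne' : r ≠ s := by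
        rintro rfl
        exact ne (k1.antisymm H1 r1)
      have o := kr.out rs ne'
      rcases lt_or_ge γ r with k | k
      · have tp := S.tp (S.P t0 r) r (by omega) (by omega) (by omega)
        have i := S.i1 (S.P t0 r) r (by omega) (by omega) (by omega)
        have := ks.sub (v := S.top (S.P t0 r) r) (by unfold Anc; omega)
        omega
      · have tp := S.tp r (S.Q t0 r) (by omega) (by omega) (by omega)
        have i := S.i1 r (S.Q t0 r) (by omega) (by omega) (by omega)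
        have := ks.sub (v := S.top r (S.Q t0 r)) (by unfold Anc; omega)
        omega
    refine ⟨na, ?_⟩
    unfold Aff at na
    unfold Anc at rc
    omega
  have inv : ∀ r, Anc S.a S.b t0 r → Anc S.a S.b r t1 → Anc S.a S.b r c ∧ S.P r c = S.P t0 c ∧
      S.Q r c = S.Q t0 c ∧ (γ < c → S.a r < S.P t0 c) ∧ (c ≤ γ → S.Q t0 c < S.b r) := by
    refine anc_ind S.T h0.1 h0.2 _ (fun _ => ⟨c0, rfl, rfl, fun k => (c4 k).1, fun k => (c5 k).1⟩) ?_
    intro r u G u1 u2 hch M hu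
    have kr := h0.of_anc G
    have ku : S.Key u := ⟨u1, u2⟩
    have ch := kr.child ku hch
    have r1 := kr.trans ch.1 hu
    obtain ⟨m0, m1, m2, m3, m4⟩ := M r1
    obtain ⟨na, o⟩ := out r G r1 m0 m1 m2 m3 m4
    have us := ku.sub (ku.trans hu H1)
    have uc : Anc S.a S.b u c := by
      unfold Child at hch
      unfold Anc at m0 ⊢
      omega
    have st := step_unaff kr ku hch uc na
    refine ⟨uc, by omega, by omega, ?_, ?_⟩ <;> unfold Child at hch <;> omega
  refine ⟨c, c0, c1, c2, c3, fun t v t0' t1' v1 v2 => ?_⟩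
  obtain ⟨m0, m1, m2, m3, m4⟩ := inv t t0' t1'
  obtain ⟨na, o⟩ := out t t0' t1' m0 m1 m2 m3 m4
  exact noaff (c := c) (h0.of_anc t0') m0 (by omega) (by omega) (by omega)

/-- the two-sided lemma -/
theorem ts {A : ℤ → Finset ℤ} (hA : S.Items A) {s g1 g2 tu tv nu nv : ℤ} (ku : S.Key tu)
    (kv : S.Key tv) (Hu : Anc S.a S.b tu s) (neu : tu ≠ s) (Hv : Anc S.a S.b tv s) (nev : tv ≠ s)
    (a1 : S.Aff s g1) (a2 : S.Aff s g2) (g12 : g1 < g2) (au : S.Aff tu nu) (av : S.Aff tv nv)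
    (n1 : nu ≤ S.item g1 g2) (n2 : S.item g1 g2 < nv) (n3 : S.a s < nu) (n4 : nv < S.b s)
    (n5 : s < nu ∨ nv < s) :
    ∃ t, S.item g1 g2 ∈ A t ∧
      ((Anc S.a S.b tu t ∧ Anc S.a S.b t tv) ∨ (Anc S.a S.b tv t ∧ Anc S.a S.b t tu)) := by
  by_contra hc
  have ks := ku.of_anc Hu
  have ps := ks.pl
  have b1 : S.L < g1 ∧ g2 < S.R := by unfold Aff at a1 a2; omega
  have i := S.i1 g1 g2 b1.1 g12 b1.2
  have fin : ∀ t0 c, S.Key t0 → Anc S.a S.b t0 s → Anc S.a S.b t0 c →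
      S.P t0 c ≤ S.item g1 g2 → S.item g1 g2 < S.Q t0 c →
      (S.P t0 c = S.a t0 ∨ S.Q t0 c = S.b t0 ∨ S.item (S.P t0 c) (S.Q t0 c) ≠ S.item g1 g2) →
      (∀ v, S.P t0 c < v → v < S.Q t0 c → ¬ S.Aff tu v) →
      (∀ v, S.P t0 c < v → v < S.Q t0 c → ¬ S.Aff tv v) → False := by
    intro t0 c k0 H0 c0 c1 c2 c3 nu' nv'
    have e1 : nu ≤ S.P t0 c := by
      by_contra k
      exact nu' nu (by omega) (by omega) au
    have e2 : S.Q t0 c ≤ nv := by
      by_contra k
      exact nv' nv (by omega) (by omega) av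
    have su := k0.sub H0
    have pc := k0.lam.pl c c0.1 c0.2
    have f := freeze k0 H0 c0 (by omega) (by omega)
    have na : ∀ v, S.P t0 c < v → v < S.Q t0 c → ¬ S.Aff s v := fun v v1 v2 =>
      noaff (c := c) ks (by unfold Anc; omega) (by omega) (by omega) (by omega)
    have e3 : g1 ≤ S.P t0 c := by
      by_contra k
      exact na g1 (by omega) (by omega) a1
    have e4 : S.Q t0 c ≤ g2 := by
      by_contra k
      exact na g2 (by omega) (by omega) a2
    have := S.i2 g1 g2 (S.P t0 c) (S.Q t0 c) b1.1 e3 c1 c2 e4 b1.2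
    omega
  rcases ku.total kv Hu Hv with k | k
  · obtain ⟨c, c0, c1, c2, c3, c4⟩ := ts_aux hA (γ := S.item g1 g2) ku k Hv nev (by omega) (by omega)
      (fun t t1 t2 m => hc ⟨t, m, Or.inl ⟨t1, t2⟩⟩)
    exact fin tu c ku Hu c0 c1 c2 c3 (fun v => c4 tu v ku.refl k) (fun v => c4 tv v k kv.refl)
  · obtain ⟨c, c0, c1, c2, c3, c4⟩ := ts_aux hA (γ := S.item g1 g2) kv k Hu neu (by omega) (by omega)
      (fun t t1 t2 m => hc ⟨t, m, Or.inr ⟨t1, t2⟩⟩)
    exact fin tv c kv Hv c0 c1 c2 c3 (fun v => c4 tu v k ku.refl) (fun v => c4 tv v kv.refl k)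

end Sys

end Pool.Agent.Lib.TV19
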