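import Pool.Agent.Lib.TV19.FL3

set_option autoImplicit false
set_option linter.unusedVariables false

namespace Pool.Agent.Lib.TV19

open Pool.Agent.Lib.MP_3ecc11_lc

namespace Sys

variable (S : Sys)

open Classical in
/-- the times between `τ` and the link that lie to the left of it -/
noncomputable def Lop (τ : ℤ) (x : Lnk) : Finset ℤ :=
  (Finset.Ioo S.L S.R).filter (fun t => Anc S.a S.b τ t ∧ Anc S.a S.b t x.t ∧ t < x.m)

variable {S} {d : ℤ → ℤ → ℕ}

theorem mem_Lop {τ t : ℤ} {x : Lnk} :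
    t ∈ S.Lop τ x ↔ S.Key t ∧ Anc S.a S.b τ t ∧ Anc S.a S.b t x.t ∧ t < x.m := by
  classical
  unfold Lop Key
  simp only [Finset.mem_filter, Finset.mem_Ioo]

theorem lop_lt {x y : Lnk} (hx : S.IsLink x) (hy : S.IsLink y) (sy : y.t < y.m) {τ γ : ℤ}
    (kτ : S.Key τ) (h0 : Anc S.a S.b τ x.t) (x1 : x.lo ≤ γ) (x2 : γ < x.hi) (y1 : y.lo ≤ γ)
    (y2 : γ < y.hi) (H : Anc S.a S.b x.t y.t) (ne : x.t ≠ y.t) :
    (S.Lop τ x).card < (S.Lop τ y).card := by
  obtain ⟨kx, a1, a2, a3, a4, a5, -⟩ := hx.basic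
  obtain ⟨ky, b1, b2, b3, b4, -⟩ := hy.basic
  apply Finset.card_lt_card
  rw [Finset.ssubset_iff_of_subset]
  · refine ⟨y.t, mem_Lop.2 ⟨ky, kτ.trans h0 H, ky.refl, sy⟩, fun k => ?_⟩
    exact ne (kx.antisymm H (mem_Lop.1 k).2.2.1)
  · intro t ht
    obtain ⟨kt, t1, t2, t3⟩ := mem_Lop.1 ht
    refine mem_Lop.2 ⟨kt, t1, kt.trans t2 H, ?_⟩
    have ty := kt.trans t2 H
    have ne' : t ≠ y.t := by
      rintro rfl
      exact ne (kx.antisymm H t2)
    have o := kt.out ty ne'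
    by_cases e : t = x.t
    · omega
    · have o' := kt.out t2 e
      omega

theorem mult_bound (Z : Finset Lnk) (Src : Finset (ℤ × ℤ)) (D : ℕ)
    (hZ : ∀ x ∈ Z, S.IsLink x ∧ x.t < x.m)
    (h : ∀ x ∈ Z, ∃ ρ ∈ Src, S.Key ρ.1 ∧ Anc S.a S.b ρ.1 x.t ∧ x.lo ≤ ρ.2 ∧ ρ.2 < x.hi ∧
      (S.Lop ρ.1 x).card < D) : Z.card ≤ D * Src.card := by
  classical
  choose! f hf using h
  have := Finset.card_le_card_of_injOn (s := Z) (t := Src ×ˢ Finset.range D)
    (fun x => (f x, (S.Lop (f x).1 x).card)) (fun x hx => by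
      have := hf x hx
      exact Finset.mem_coe.2 (Finset.mem_product.2 ⟨this.1, Finset.mem_range.2 this.2.2.2.2.2⟩)) (by
      intro x hx y hy e
      simp only [Prod.mk.injEq] at e
      obtain ⟨e1, e2⟩ := e
      obtain ⟨-, k, a1, a2, a3, -⟩ := hf x hx
      obtain ⟨-, -, b1, b2, b3, -⟩ := hf y hy
      obtain ⟨lx, sx⟩ := hZ x hx
      obtain ⟨ly, sy⟩ := hZ y hy
      rw [← e1] at b1 b2 b3 e2
      have c1 := lx.right sx
      have c2 := ly.right sy
      have px := lx.1.pl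
      have py := ly.1.pl
      by_cases et : x.t = y.t
      · rcases lx.disj ly et with j | j
        · exact j
        · omega
      exfalso
      rcases lx.1.total ly.1 (v := (f x).2) (by unfold Anc; omega) (by unfold Anc; omega) with j | j
      · have := lop_lt lx ly sy k a1 a2 a3 b2 b3 j et
        omega
      · have := lop_lt ly lx sx k b1 b2 b3 a2 a3 j (Ne.symm et)
        omega)
  rw [Finset.card_product, Finset.card_range, Nat.mul_comm] at this
  exact this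

theorem item_bound {A : ℤ → Finset ℤ} (hA : S.Items A) (Z : Finset Lnk) (D : ℕ)
    (hZ : ∀ x ∈ Z, S.IsLink x ∧ S.w x ≠ x.m ∧ x.t < x.m)
    (h : ∀ x ∈ Z, ∃ σ, S.Key σ ∧ S.Clean σ x ∧ D ≤ (S.Lop σ x).card) :
    D * Z.card ≤ ∑ t ∈ Finset.Ioo S.L S.R, (A t).card := by
  classical
  choose! f hf using h
  have h1 : D * Z.card ≤ (Z.sigma (fun x => S.Lop (f x) x)).card := by
    rw [Finset.card_sigma, Nat.mul_comm, ← smul_eq_mul, ← Finset.sum_const]
    exact Finset.sum_le_sum (fun x hx => (hf x hx).2.2)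
  rw [← Finset.card_sigma]
  refine le_trans h1 (Finset.card_le_card_of_injOn
    (fun z => (⟨z.2, S.g z.1⟩ : (_ : ℤ) × ℤ)) ?_ ?_)
  · rintro ⟨x, t⟩ hz
    obtain ⟨hx, ht⟩ := Finset.mem_sigma.1 (Finset.mem_coe.1 hz)
    obtain ⟨kt, t1, t2, t3⟩ := mem_Lop.1 ht
    obtain ⟨lx, nx, sx⟩ := hZ x hx
    exact Finset.mem_coe.2 (Finset.mem_sigma.2 ⟨Finset.mem_Ioo.2 kt,
      (clean_exp lx nx sx (hf x hx).1 (hf x hx).2.1 t1 t2 t3).mem hA kt⟩)
  · rintro ⟨x, t⟩ hz ⟨y, t'⟩ hz' e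
    obtain ⟨hx, ht⟩ := Finset.mem_sigma.1 (Finset.mem_coe.1 hz)
    obtain ⟨hy, ht'⟩ := Finset.mem_sigma.1 (Finset.mem_coe.1 hz')
    simp only [Sigma.mk.injEq, heq_eq_eq] at e ⊢
    obtain ⟨e1, e2⟩ := e
    subst e1
    refine ⟨?_, rfl⟩
    obtain ⟨kt, t1, t2, t3⟩ := mem_Lop.1 ht
    obtain ⟨-, s1, s2, s3⟩ := mem_Lop.1 ht'
    obtain ⟨lx, nx, sx⟩ := hZ x hx
    obtain ⟨ly, ny, sy⟩ := hZ y hy
    have c1 := lx.basic
    have c2 := ly.basic
    have gx : x.lo ≤ S.g x ∧ S.g x < x.hi := by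
      obtain ⟨-, -, -, -, gx⟩ := lx.geo nx
      omega
    have gy : y.lo ≤ S.g y ∧ S.g y < y.hi := by
      obtain ⟨-, -, -, -, gx⟩ := ly.geo ny
      omega
    by_cases et : x.t = y.t
    · rcases lx.disj ly et with j | j
      · exact j
      · omega
    exfalso
    rcases lx.1.total ly.1 (v := S.g x) (by unfold Anc; omega) (by unfold Anc; omega) with j | j
    · exact clean_uniq ly ny lx nx sx e2.symm (hf y hy).1 (hf y hy).2.1
        ((hf y hy).1.trans s1 t2) j et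
    · exact clean_uniq lx nx ly ny sy e2 (hf x hx).1 (hf x hx).2.1
        ((hf x hx).1.trans t1 s2) j (Ne.symm et)

open Classical in
/-- earlier members of the class -/
noncomputable def Ear (S : Sys) (d : ℤ → ℤ → ℕ) (X : Finset Lnk) (x : Lnk) : Finset Lnk :=
  X.filter (fun y => S.Same d x y ∧ Anc S.a S.b y.t x.t ∧ y.t ≠ x.t)

theorem mem_Ear {X : Finset Lnk} {x y : Lnk} :
    y ∈ S.Ear d X x ↔ y ∈ X ∧ S.Same d x y ∧ Anc S.a S.b y.t x.t ∧ y.t ≠ x.t := by
  classical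
  unfold Ear
  simp only [Finset.mem_filter]

theorem ear_lt (U : S.Ultra d) {X : Finset Lnk} (hX : ∀ x ∈ X, S.FLink d x) {x y : Lnk}
    (hx : x ∈ X) (hy : y ∈ S.Ear d X x) : (S.Ear d X y).card < (S.Ear d X x).card := by
  obtain ⟨y1, y2, y3, y4⟩ := mem_Ear.1 hy
  apply Finset.card_lt_card
  rw [Finset.ssubset_iff_of_subset]
  · exact ⟨y, hy, fun k => (mem_Ear.1 k).2.2.2 rfl⟩
  · intro z hz
    obtain ⟨z1, z2, z3, z4⟩ := mem_Ear.1 hz
    have kz := (hX z z1).1.1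
    refine mem_Ear.2 ⟨z1, y2.trans U (hX x hx) (hX y y1) (hX z z1) z2, kz.trans z3 y3, fun e => ?_⟩
    rw [← e] at y3
    exact z4 (kz.antisymm z3 y3)

theorem small_bound (U : S.Ultra d) {X : Finset Lnk} (hX : ∀ x ∈ X, S.FLink d x) (D nF : ℕ)
    (hF : ∀ Y : Finset Lnk, (∀ y ∈ Y, S.FLink d y) →
      (∀ y ∈ Y, ∀ z ∈ Y, S.Same d y z → y = z) → Y.card ≤ nF) :
    (X.filter (fun x => (S.Ear d X x).card < D)).card ≤ D * nF := by
  classical
  have := Finset.card_le_mul_card_image_of_maps_to (s := X.filter (fun x => (S.Ear d X x).card < D))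
    (t := Finset.range D) (f := fun x => (S.Ear d X x).card)
    (fun x hx => Finset.mem_range.2 (Finset.mem_filter.1 hx).2) nF (by
      intro i _
      apply hF
      · intro y hy
        exact hX y (Finset.mem_filter.1 (Finset.mem_filter.1 hy).1).1
      · intro y hy z hz sm
        obtain ⟨y1, y2⟩ := Finset.mem_filter.1 hy
        obtain ⟨z1, z2⟩ := Finset.mem_filter.1 hz
        have y3 := (Finset.mem_filter.1 y1).1
        have z3 := (Finset.mem_filter.1 z1).1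
        obtain ⟨c1, c2⟩ := sm.cmp U (hX y y3) (hX z z3)
        by_contra ne
        have ne' : y.t ≠ z.t := fun e => ne (c2 e)
        rcases c1 with c | c
        · have := ear_lt U hX z3 (mem_Ear.2 ⟨y3, sm.symm U (hX y y3) (hX z z3), c, ne'⟩)
          omega
        · have := ear_lt U hX y3 (mem_Ear.2 ⟨z3, sm, c, ne'.symm⟩)
          omega)
  rw [Finset.card_range, Nat.mul_comm] at this
  exact this

theorem exists_first (U : S.Ultra d) {X : Finset Lnk} (hX : ∀ x ∈ X, S.FLink d x ∧ x.t < x.m)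
    {x : Lnk} (hx : x ∈ X) (ne : (S.Ear d X x).Nonempty) :
    ∃ y ∈ S.Ear d X x, (S.Ear d X x).card ≤ (S.Lop y.t x).card := by
  obtain ⟨y, hy, mx⟩ := Finset.exists_max_image (S.Ear d X x) (fun y => S.b y.t - S.a y.t) ne
  refine ⟨y, hy, Finset.card_le_card_of_injOn (fun z => z.t) ?_ ?_⟩
  · intro z hz
    have hz := Finset.mem_coe.1 hz
    obtain ⟨y1, y2, y3, y4⟩ := mem_Ear.1 hy
    obtain ⟨z1, z2, z3, z4⟩ := mem_Ear.1 hz
    have ky := (hX y y1).1.1.1
    have kz := (hX z z1).1.1.1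
    refine Finset.mem_coe.2 (mem_Lop.2 ⟨kz, ?_, z3, ?_⟩)
    · rcases ky.total kz y3 z3 with c | c
      · exact c
      · have := kz.sub c
        have := mx z hz
        have := kz.pl
        unfold Anc
        dsimp only
        omega
    · obtain ⟨M, kM, m1, m2, m3, m4, m5, m6, -⟩ := cls_early U (hX x hx).1 (hX z z1).1 z2 z3 z4
      have zM := kz.trans z3 m1
      have o := kz.out zM (by
        intro e
        rw [← e] at m1
        exact z4 (kz.antisymm z3 m1))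
      have := (hX z z1).1.1.basic
      have := (hX z z1).2
      have := (hX x hx).1.1.basic
      dsimp only
      omega
  · intro z hz z' hz' e
    obtain ⟨z1, z2, -⟩ := mem_Ear.1 (Finset.mem_coe.1 hz)
    obtain ⟨w1, w2, -⟩ := mem_Ear.1 (Finset.mem_coe.1 hz')
    exact (((z2.symm U (hX x hx).1 (hX z z1).1).trans U (hX z z1).1 (hX x hx).1 (hX z' w1).1
      w2).cmp U (hX z z1).1 (hX z' w1).1).2 e

theorem card_fun_le (r : ℤ → ℤ → Prop) [∀ p : ℤ × ℤ, Decidable (r p.1 p.2)] (I J : Finset ℤ)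
    (h : ∀ t ∈ I, ∀ u v, r t u → r t v → u = v) :
    ((I ×ˢ J).filter (fun p => r p.1 p.2)).card ≤ I.card := by
  apply Finset.card_le_card_of_injOn (fun p => p.1)
  · intro p hp
    exact (Finset.mem_product.1 (Finset.mem_filter.1 hp).1).1
  · intro p hp q hq e
    obtain ⟨p1, p2⟩ := Finset.mem_filter.1 (Finset.mem_coe.1 hp)
    obtain ⟨q1, q2⟩ := Finset.mem_filter.1 (Finset.mem_coe.1 hq)
    dsimp only at e
    rw [← e] at q2
    exact Prod.ext e (h p.1 (Finset.mem_product.1 p1).1 _ _ p2 q2)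

/-- the bound on F-links to the right of their time -/
theorem fl_right (U : S.Ultra d) {A : ℤ → Finset ℤ} (hA : S.Items A) (D nF nP : ℕ)
    (hF : ∀ Y : Finset Lnk, (∀ y ∈ Y, S.FLink d y) →
      (∀ y ∈ Y, ∀ z ∈ Y, S.Same d y z → y = z) → Y.card ≤ nF)
    (hP : ∀ Z : Finset Lnk, (∀ z ∈ Z, S.PLink d z) → Z.card ≤ nP)
    (X : Finset Lnk) (hX : ∀ x ∈ X, S.FLink d x ∧ x.t < x.m) :
    D * X.card ≤ D * D * nF + ∑ t ∈ Finset.Ioo S.L S.R, (A t).card
      + D * D * (2 * (Finset.Ioo S.L S.R).card + nP) := by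
  classical
  rcases Nat.eq_zero_or_pos D with rfl | hD
  · simp
  set I := Finset.Ioo S.L S.R with hI
  set J := Finset.Icc S.L S.R with hJ
  let PL : Finset Lnk := ((I ×ˢ J ×ˢ J ×ˢ J).image
    (fun p => (⟨p.1, p.2.1, p.2.2.1, p.2.2.2⟩ : Lnk))).filter (S.PLink d)
  have mPL : ∀ z, S.PLink d z → z ∈ PL := by
    intro z hz
    refine Finset.mem_filter.2 ⟨Finset.mem_image.2 ⟨(z.t, z.lo, z.m, z.hi), ?_, rfl⟩, hz⟩
    obtain ⟨k, a1, a2, a3, a4, -⟩ := hz.1.basic
    have := k.pl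
    simp only [hI, hJ, Finset.mem_product, Finset.mem_Ioo, Finset.mem_Icc]
    omega
  let Src : Finset (ℤ × ℤ) := ((I ×ˢ J).filter (fun p => S.Junc p.1 p.2) ∪
    (I ×ˢ J).filter (fun p => S.Vsrc p.1 p.2)) ∪ PL.image (fun z => (S.w z, S.g z))
  have cS : Src.card ≤ 2 * I.card + nP := by
    have h1 := card_fun_le S.Junc I J (fun t ht u v => junc_uniq (Finset.mem_Ioo.1 ht))
    have h2 := card_fun_le S.Vsrc I J (fun t ht u v => vsrc_uniq)
    have h3 := hP PL (fun z hz => (Finset.mem_filter.1 hz).2)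
    have h4 := Finset.card_image_le (s := PL) (f := fun z => (S.w z, S.g z))
    have h5 := Finset.card_union_le ((I ×ˢ J).filter (fun p => S.Junc p.1 p.2))
      ((I ×ˢ J).filter (fun p => S.Vsrc p.1 p.2))
    have h6 := Finset.card_union_le ((I ×ˢ J).filter (fun p => S.Junc p.1 p.2) ∪
      (I ×ˢ J).filter (fun p => S.Vsrc p.1 p.2)) (PL.image (fun z => (S.w z, S.g z)))
    show Finset.card (_ ∪ _) ≤ _
    omega
  let X1 := X.filter (fun x => (S.Ear d X x).card < D)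
  let X2 := X.filter (fun x => ∃ σ, S.Key σ ∧ S.Clean σ x ∧ D ≤ (S.Lop σ x).card)
  let X3 := X.filter (fun x => ∃ ρ ∈ Src, S.Key ρ.1 ∧ Anc S.a S.b ρ.1 x.t ∧ x.lo ≤ ρ.2 ∧
    ρ.2 < x.hi ∧ (S.Lop ρ.1 x).card < D)
  have c1 : X1.card ≤ D * nF := small_bound U (fun x hx => (hX x hx).1) D nF hF
  have c2 : D * X2.card ≤ ∑ t ∈ I, (A t).card := item_bound hA X2 D (fun x hx => by
    have := hX x (Finset.mem_filter.1 hx).1
    exact ⟨this.1.1, this.1.2.1, this.2⟩) (fun x hx => (Finset.mem_filter.1 hx).2)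
  have c3 : X3.card ≤ D * Src.card := mult_bound X3 Src D (fun x hx => by
    have := hX x (Finset.mem_filter.1 hx).1
    exact ⟨this.1.1, this.2⟩) (fun x hx => (Finset.mem_filter.1 hx).2)
  have sub : X ⊆ (X1 ∪ X2) ∪ X3 := by
    intro x hx
    simp only [Finset.mem_union, X1, X2, X3, Finset.mem_filter]
    by_cases k1 : (S.Ear d X x).card < D
    · exact Or.inl (Or.inl ⟨hx, k1⟩)
    obtain ⟨y, hy, cy⟩ := exists_first U hX hx (Finset.card_pos.1 (by omega))
    obtain ⟨y1, y2, y3, y4⟩ := mem_Ear.1 hy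
    have ky := (hX y y1).1.1.1
    obtain ⟨σ, s1, s2, s3, s4⟩ := exists_sigma (x := x) ky y3
    have kσ := ky.of_anc s1
    by_cases k2 : D ≤ (S.Lop σ x).card
    · exact Or.inl (Or.inr ⟨hx, σ, kσ, s3, k2⟩)
    refine Or.inr ⟨hx, ?_⟩
    have n1 : y.t ≠ σ := by
      rintro rfl
      omega
    have nf : ¬ S.Free σ (S.g x) := by
      rcases s4 with k | k
      · exact absurd k.symm n1
      · exact k
    obtain ⟨kx, a1, a2, a3, a4, -⟩ := (hX x hx).1.1.basic
    have px := kx.pl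
    have gx : x.lo ≤ S.g x ∧ S.g x < x.hi := by
      obtain ⟨-, -, -, -, gx⟩ := (hX x hx).1.1.geo (hX x hx).1.2.1
      omega
    rcases trace_event U (hX x hx).1 (hX y y1).1 (hX x hx).2 y2 y3 y4 s1 n1 s2 s3 nf with
      j | ⟨v, v1, v2, v3⟩ | ⟨z, z1, z2, z3, z4, z5⟩
    · refine ⟨(σ, S.g x), ?_, kσ, s2, gx.1, gx.2, by dsimp only; omega⟩
      simp only [Src, Finset.mem_union, Finset.mem_filter, Finset.mem_product, hI, hJ,
        Finset.mem_Ioo, Finset.mem_Icc]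
      exact Or.inl (Or.inl ⟨⟨kσ, by omega⟩, j⟩)
    · refine ⟨(σ, v), ?_, kσ, s2, v2, v3, by dsimp only; omega⟩
      simp only [Src, Finset.mem_union, Finset.mem_filter, Finset.mem_product, hI, hJ,
        Finset.mem_Ioo, Finset.mem_Icc]
      exact Or.inl (Or.inr ⟨⟨kσ, by omega⟩, v1⟩)
    · refine ⟨(S.w z, S.g z), Finset.mem_union_right _ (Finset.mem_image.2 ⟨z, mPL z z1, rfl⟩),
        kσ.of_anc z2, z3, z4, z5, ?_⟩
      have : (S.Lop (S.w z) x).card ≤ (S.Lop σ x).card := by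
        apply Finset.card_le_card
        intro t ht
        obtain ⟨t0, t1, t2, t3⟩ := mem_Lop.1 ht
        exact mem_Lop.2 ⟨t0, kσ.trans z2 t1, t2, t3⟩
      dsimp only
      omega
  have c4 := Finset.card_le_card sub
  have c5 := Finset.card_union_le (X1 ∪ X2) X3
  have c6 := Finset.card_union_le X1 X2
  have c7 : X3.card ≤ D * (2 * I.card + nP) := le_trans c3 (Nat.mul_le_mul_left _ cS)
  calc D * X.card ≤ D * (X1.card + X2.card + X3.card) := Nat.mul_le_mul_left _ (by omega)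
    _ = D * X1.card + D * X2.card + D * X3.card := by ring
    _ ≤ D * (D * nF) + ∑ t ∈ I, (A t).card + D * (D * (2 * I.card + nP)) :=
      Nat.add_le_add (Nat.add_le_add (Nat.mul_le_mul_left _ c1) c2) (Nat.mul_le_mul_left _ c7)
    _ = _ := by ring

end Sys

end Pool.Agent.Lib.TV19
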