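import Pool.Agent.Lib.TV19.TS

set_option autoImplicit false
set_option linter.unusedVariables false

namespace Pool.Agent.Lib.TV19

open Pool.Agent.Lib.MP_3ecc11_lc

theorem side_refl {R x : ℤ} {p q p' q' : ℤ → ℤ} {W : Finset ℤ} (S : Side R x p q p' q' W) :
    SideL (-R) (-x) (rf q) (rf p) (rf q') (rf p') (W.image (fun t => -t)) := by
  refine ⟨fun y hy => ?_, fun v v1 v2 h1 h2 => ?_⟩
  · rw [mem_negs] at hy
    obtain ⟨a1, a2, a3, a4, a5, a6, a7, a8, a9⟩ := S.win _ hy
    rw [mem_negs]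
    unfold rf
    simp only [neg_neg]
    refine ⟨by omega, by omega, by omega, by omega, a5, by omega, by omega, by omega, by omega⟩
  · rw [mem_negs] at h1
    have := S.oth (-v) (by omega) (by omega) h1 (fun y hy e => h2 (-y)
      (by rw [mem_negs]; simpa using hy) (by unfold rf; rw [neg_neg]; omega))
    unfold rf
    omega

/-- mirror image of a link -/
def Lnk.neg (x : Lnk) : Lnk := ⟨-x.t, -x.hi, -x.m, -x.lo⟩

theorem Lnk.neg_neg (x : Lnk) : x.neg.neg = x := by
  cases x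
  simp [Lnk.neg]

theorem Lnk.neg_inj : Function.Injective Lnk.neg :=
  Function.LeftInverse.injective Lnk.neg_neg

namespace Sys

/-- mirror image of a system -/
def refl (S : Sys) : Sys where
  L := -S.R
  R := -S.L
  a := rf S.b
  b := rf S.a
  P t := rf (S.Q (-t))
  Q t := rf (S.P (-t))
  top u v := -S.top (-v) (-u)
  item u v := -S.item (-v) (-u) - 1
  T := S.T.refl
  lam t t1 t2 := (S.lam (-t) (by omega) (by omega)).refl
  trR t u t1 t2 u1 u2 e1 e2 := by
    unfold rf at e1 e2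
    obtain ⟨W, hW⟩ := S.trL (-t) (-u) (by omega) (by omega) (by omega) (by omega) (by omega)
      (by omega)
    have := hW.refl
    rw [neg_neg] at this
    exact ⟨_, this⟩
  trL t u t1 t2 u1 u2 e1 e2 := by
    unfold rf at e1 e2
    obtain ⟨W, hW⟩ := S.trR (-t) (-u) (by omega) (by omega) (by omega) (by omega) (by omega)
      (by omega)
    have := side_refl hW
    rw [neg_neg] at this
    exact ⟨_, this⟩
  tp u v h1 h2 h3 := by
    have := S.tp (-v) (-u) (by omega) (by omega) (by omega)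
    unfold rf
    rw [neg_neg]
    omega
  i1 u v h1 h2 h3 := by
    have := S.i1 (-v) (-u) (by omega) (by omega) (by omega)
    omega
  i2 u v u' v' h1 h2 h3 h4 h5 h6 := by
    have := S.i2 (-v) (-u) (-v') (-u') (by omega) (by omega) (by omega) (by omega) (by omega)
      (by omega)
    omega

variable {S : Sys} {d : ℤ → ℤ → ℕ}

theorem refl_a (v : ℤ) : S.refl.a v = -S.b (-v) := rfl
theorem refl_b (v : ℤ) : S.refl.b v = -S.a (-v) := rfl
theorem refl_P (t v : ℤ) : S.refl.P t v = -S.Q (-t) (-v) := rfl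
theorem refl_Q (t v : ℤ) : S.refl.Q t v = -S.P (-t) (-v) := rfl
theorem refl_item (u v : ℤ) : S.refl.item u v = -S.item (-v) (-u) - 1 := rfl
theorem refl_top (u v : ℤ) : S.refl.top u v = -S.top (-v) (-u) := rfl

theorem key_refl {v : ℤ} : S.refl.Key v ↔ S.Key (-v) := by
  show (-S.R < v ∧ v < -S.L) ↔ _
  unfold Key
  omega

theorem anc_refl' {t v : ℤ} : Anc S.refl.a S.refl.b t v ↔ Anc S.a S.b (-t) (-v) := by
  unfold Anc
  rw [refl_a, refl_b]
  omega

theorem child_refl {t u : ℤ} : Child S.refl.a S.refl.b t u ↔ Child S.a S.b (-t) (-u) := by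
  unfold Child
  simp only [refl_a, refl_b]
  omega

theorem aff_refl {t c : ℤ} : S.refl.Aff t c ↔ S.Aff (-t) (-c) := by
  unfold Aff
  simp only [refl_a, refl_b, refl_P, refl_Q]
  omega

theorem link_refl {x : Lnk} : S.refl.IsLink x ↔ S.IsLink x.neg := by
  unfold IsLink
  simp only [key_refl, aff_refl, child_refl, anc_refl', refl_a, refl_b, refl_P, refl_Q, Lnk.neg]
  constructor
  · rintro ⟨h1, h2, u, u1, u2, u3, u4, u5, u6, u7⟩
    exact ⟨h1, h2, -u, u1, u2, u3, by omega, by omega, by omega, by omega⟩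
  · rintro ⟨h1, h2, u, u1, u2, u3, u4, u5, u6, u7⟩
    refine ⟨h1, h2, -u, ?_⟩
    rw [neg_neg]
    exact ⟨u1, u2, u3, by omega, by omega, by omega, by omega⟩

theorem w_refl (x : Lnk) : S.refl.w x = -S.w x.neg := rfl

theorem e_refl {x : Lnk} (h : S.refl.w x ≠ x.m) : S.refl.e x = -S.e x.neg := by
  have e : x.neg.m = -x.m := rfl
  rw [w_refl] at h
  unfold Sys.e
  rw [w_refl]
  by_cases c : -S.w x.neg < x.m
  · rw [if_pos c, if_neg (by omega)]; rfl
  · rw [if_neg c, if_pos (by omega)]; rfl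

theorem g_refl {x : Lnk} (h : S.refl.w x ≠ x.m) : S.refl.g x = -S.g x.neg - 1 := by
  have e : x.neg.m = -x.m := rfl
  rw [w_refl] at h
  unfold Sys.g
  rw [w_refl]
  by_cases c : -S.w x.neg < x.m
  · rw [if_pos c, if_neg (by omega)]; rfl
  · rw [if_neg c, if_pos (by omega)]; rfl

theorem ne_refl {x : Lnk} : S.refl.w x ≠ x.m ↔ S.w x.neg ≠ x.neg.m := by
  have e : x.neg.m = -x.m := rfl
  rw [w_refl]
  omega

theorem plink_refl {x : Lnk} :
    S.refl.PLink (fun u v => d (-u) (-v)) x ↔ S.PLink d x.neg := by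
  unfold PLink
  rw [link_refl, ← ne_refl]
  refine and_congr_right (fun _ => and_congr_right (fun h => ?_))
  rw [e_refl h, w_refl]
  simp only [neg_neg]
  rfl

theorem flink_refl {x : Lnk} :
    S.refl.FLink (fun u v => d (-u) (-v)) x ↔ S.FLink d x.neg := by
  unfold FLink
  rw [link_refl, ← ne_refl]
  refine and_congr_right (fun _ => and_congr_right (fun h => ?_))
  rw [e_refl h, w_refl]
  simp only [neg_neg]
  rfl

theorem same_refl {x y : Lnk} (hx : S.refl.w x ≠ x.m) (hy : S.refl.w y ≠ y.m) :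
    S.refl.Same (fun u v => d (-u) (-v)) x y ↔ S.Same d x.neg y.neg := by
  unfold Same
  rw [e_refl hx, e_refl hy]
  rw [w_refl] at hx hy
  simp only [w_refl, neg_neg]
  have e : x.neg.m = -x.m := rfl
  have e' : y.neg.m = -y.m := rfl
  refine and_congr ?_ Iff.rfl
  omega

theorem Ultra.refl (U : S.Ultra d) : S.refl.Ultra (fun u v => d (-u) (-v)) := by
  refine ⟨fun u v h1 h2 h3 => ?_, fun u v h1 h2 => ?_, fun u v w h1 h2 h3 => ?_,
    fun u v w h1 h2 h3 => ?_, fun u v w h1 h2 h3 => ?_, fun u k h1 => ?_⟩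
  · have := U.d0 _ _ (key_refl.1 h1) (key_refl.1 h2) h3
    omega
  · exact U.sym _ _ (key_refl.1 h1) (key_refl.1 h2)
  · exact U.d1 _ _ _ (key_refl.1 h1) (key_refl.1 h2) (key_refl.1 h3)
  · exact U.d2 _ _ _ (key_refl.1 h1) (key_refl.1 h2) (key_refl.1 h3)
  · exact U.d3 _ _ _ (key_refl.1 h1) (anc_refl'.1 h2) (anc_refl'.1 h3)
  · obtain ⟨M, m1, m2, m3⟩ := U.d6 (-u) k (key_refl.1 h1)
    refine ⟨-M, key_refl.2 (by rw [neg_neg]; exact m1), by rw [neg_neg]; exact m2,
      fun v h2 h3 => anc_refl'.2 ?_⟩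
    rw [neg_neg]
    exact m3 _ (key_refl.1 h2) h3

/-- mirror image of the item sets -/
def negA (A : ℤ → Finset ℤ) (t : ℤ) : Finset ℤ := (A (-t)).image (fun γ => -γ - 1)

theorem Items.refl {A : ℤ → Finset ℤ} (h : S.Items A) : S.refl.Items (negA A) := by
  intro t c kt af
  obtain ⟨h1, h2⟩ := h (-t) (-c) (key_refl.1 kt) (aff_refl.1 af)
  simp only [refl_a, refl_b, refl_P, refl_Q, refl_item, neg_neg, negA]
  exact ⟨fun k => Finset.mem_image.2 ⟨_, h2 (by omega), rfl⟩,
    fun k => Finset.mem_image.2 ⟨_, h1 (by omega), rfl⟩⟩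

theorem card_refl : (Finset.Ioo S.refl.L S.refl.R).card = (Finset.Ioo S.L S.R).card := by
  show (Finset.Ioo (-S.R) (-S.L)).card = _
  rw [Int.card_Ioo, Int.card_Ioo]
  congr 1
  ring

theorem sum_refl (A : ℤ → Finset ℤ) :
    ∑ t ∈ Finset.Ioo S.refl.L S.refl.R, (negA A t).card = ∑ t ∈ Finset.Ioo S.L S.R, (A t).card := by
  show ∑ t ∈ Finset.Ioo (-S.R) (-S.L), _ = _
  refine Finset.sum_bij' (fun t _ => -t) (fun t _ => -t) ?_ ?_ ?_ ?_ ?_
  · intro t ht; rw [Finset.mem_Ioo] at *; omega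
  · intro t ht; rw [Finset.mem_Ioo] at *; omega
  · intro t _; exact neg_neg t
  · intro t _; exact neg_neg t
  · intro t _
    unfold negA
    exact Finset.card_image_of_injective _ (fun u v h => by omega)

end Sys

end Pool.Agent.Lib.TV19
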