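import Pool.Agent.Lib.TV19.Defs

set_option autoImplicit false
set_option linter.unusedVariables false

namespace Pool.Agent.Lib.TV19

open Pool.Agent.Lib.MP_3ecc11_lc

section
variable {L R : ℤ} {a b : ℤ → ℤ}

theorem anc_refl (h : Lam L R a b) {v : ℤ} (v1 : L < v) (v2 : v < R) : Anc a b v v := by
  have := h.pl v v1 v2
  unfold Anc; omega

theorem anc_key (h : Lam L R a b) {t v : ℤ} (t1 : L < t) (t2 : t < R) (H : Anc a b t v) :
    L < v ∧ v < R := by
  have := h.pl t t1 t2
  unfold Anc at H; omega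

theorem anc_sub (h : Lam L R a b) {t v : ℤ} (t1 : L < t) (t2 : t < R) (H : Anc a b t v) :
    a t ≤ a v ∧ b v ≤ b t ∧ (v < t → b v ≤ t) ∧ (t < v → t ≤ a v) := by
  have := h.pl t t1 t2
  unfold Anc at H
  rcases lt_trichotomy v t with c | c | c
  · have := h.l1 t v t1 t2 H.1 c
    omega
  · subst c; omega
  · have := h.l2 t v t1 t2 c H.2
    omega

theorem anc_trans (h : Lam L R a b) {t u v : ℤ} (t1 : L < t) (t2 : t < R) (H : Anc a b t u)
    (G : Anc a b u v) : Anc a b t v := by
  have := anc_sub h t1 t2 H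
  unfold Anc at *; omega

theorem anc_antisymm (h : Lam L R a b) {t v : ℤ} (t1 : L < t) (t2 : t < R) (H : Anc a b t v)
    (G : Anc a b v t) : t = v := by
  have := anc_sub h t1 t2 H
  unfold Anc at *; omega

theorem anc_total_aux (h : Lam L R a b) {t s v : ℤ} (t1 : L < t) (t2 : t < R) (s1 : L < s)
    (s2 : s < R) (ts : t < s) (H : Anc a b t v) (G : Anc a b s v) : Anc a b t s ∨ Anc a b s t := by
  have p1 := h.pl t t1 t2
  have p2 := h.pl s s1 s2
  unfold Anc at *
  by_contra hc
  have c1 : b t ≤ s := by omega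
  have c2 : t ≤ a s := by omega
  have l4 := h.l4 s s1 s2 (by omega)
  rcases eq_or_lt_of_le c2 with e | e
  · rw [← e] at l4; omega
  · have := h.l2 t (a s) t1 t2 e (by omega)
    omega

theorem anc_total (h : Lam L R a b) {t s v : ℤ} (t1 : L < t) (t2 : t < R) (s1 : L < s)
    (s2 : s < R) (H : Anc a b t v) (G : Anc a b s v) : Anc a b t s ∨ Anc a b s t := by
  rcases lt_trichotomy t s with c | c | c
  · exact anc_total_aux h t1 t2 s1 s2 c H G
  · subst c; exact Or.inl (anc_refl h t1 t2)
  · exact (anc_total_aux h s1 s2 t1 t2 c G H).symm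

/-- a node that is not the root has a parent -/
theorem exists_par (h : Lam L R a b) {v : ℤ} (v1 : L < v) (v2 : v < R) (hv : L < a v ∨ b v < R) :
    ∃ r, L < r ∧ r < R ∧ Child a b r v := by
  have p := h.pl v v1 v2
  unfold Child
  by_cases c1 : L < a v
  · have l4 := h.l4 v v1 v2 c1
    have pa := h.pl (a v) c1 (by omega)
    rcases eq_or_lt_of_le l4 with e | e
    · exact ⟨a v, c1, by omega, Or.inl ⟨rfl, e⟩⟩
    · have l3 := h.l3 v v1 v2 (by omega)
      have := h.l2 (a v) (b v) c1 (by omega) (by omega) e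
      exact ⟨b v, by omega, by omega, Or.inr ⟨rfl, by omega⟩⟩
  · have c2 : b v < R := by omega
    have l3 := h.l3 v v1 v2 c2
    have pb := h.pl (b v) (by omega) c2
    exact ⟨b v, by omega, c2, Or.inr ⟨rfl, by omega⟩⟩

theorem child_anc (h : Lam L R a b) {t u : ℤ} (t1 : L < t) (t2 : t < R) (u1 : L < u) (u2 : u < R)
    (H : Child a b t u) : Anc a b t u ∧ t ≠ u ∧ ¬ Anc a b u t := by
  have p1 := h.pl t t1 t2
  have p2 := h.pl u u1 u2
  unfold Child at H
  unfold Anc
  omega

/-- a proper ancestor of a child is an ancestor of its parent -/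
theorem anc_par (h : Lam L R a b) {t r u : ℤ} (t1 : L < t) (t2 : t < R) (r1 : L < r) (r2 : r < R)
    (u1 : L < u) (u2 : u < R) (H : Child a b r u) (G : Anc a b t u) (ne : t ≠ u) :
    Anc a b t r := by
  have c := child_anc h r1 r2 u1 u2 H
  rcases anc_total h t1 t2 r1 r2 G c.1 with k | k
  · exact k
  · have s1 := anc_sub h r1 r2 k
    have s2 := anc_sub h t1 t2 G
    have p1 := h.pl t t1 t2
    have p2 := h.pl u u1 u2
    have p3 := h.pl r r1 r2
    unfold Child at H
    unfold Anc at *
    omega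

theorem child_uniq (h : Lam L R a b) {t u u' v : ℤ} (t1 : L < t) (t2 : t < R) (u1 : L < u)
    (u2 : u < R) (u3 : L < u') (u4 : u' < R) (H : Child a b t u) (G : Child a b t u')
    (k : Anc a b u v) (k' : Anc a b u' v) : u = u' := by
  have p1 := h.pl u u1 u2
  have p2 := h.pl u' u3 u4
  apply anc_antisymm h u1 u2 <;> unfold Child at * <;> unfold Anc at * <;> omega

/-- induction down a path of the tree -/
theorem anc_ind (h : Lam L R a b) {t : ℤ} (t1 : L < t) (t2 : t < R) (M : ℤ → Prop) (h0 : M t)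
    (hs : ∀ r u, Anc a b t r → L < u → u < R → Child a b r u → M r → M u) :
    ∀ s, Anc a b t s → M s := by
  have key : ∀ n : ℕ, ∀ s, Anc a b t s → b t - a t - (b s - a s) ≤ n → M s := by
    intro n
    induction n with
    | zero =>
      intro s H hn
      have k := anc_sub h t1 t2 H
      have ks := anc_key h t1 t2 H
      have p := h.pl t t1 t2
      have : t = s := anc_antisymm h t1 t2 H (by unfold Anc; push_cast at hn; omega)
      rw [← this]; exact h0
    | succ n ih =>
      intro s H hn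
      by_cases e : t = s
      · rw [← e]; exact h0
      have k := anc_sub h t1 t2 H
      have ks := anc_key h t1 t2 H
      have p := h.pl t t1 t2
      obtain ⟨r, r1, r2, hr⟩ := exists_par h ks.1 ks.2 (by omega)
      have G := anc_par h t1 t2 r1 r2 ks.1 ks.2 hr H e
      refine hs r s G ks.1 ks.2 hr (ih r G ?_)
      have pr := h.pl r r1 r2
      unfold Child at hr
      push_cast at hn
      omega
  intro s H
  exact key (b t - a t - (b s - a s)).toNat s H (by omega)

theorem exists_child (h : Lam L R a b) {t s : ℤ} (t1 : L < t) (t2 : t < R) (H : Anc a b t s)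
    (ne : t ≠ s) : ∃ u, L < u ∧ u < R ∧ Child a b t u ∧ Anc a b u s := by
  have := anc_ind h t1 t2 (fun s => t = s ∨ ∃ u, L < u ∧ u < R ∧ Child a b t u ∧ Anc a b u s)
    (Or.inl rfl) (by
      intro r u G u1 u2 hc M
      right
      rcases M with e | ⟨v, v1, v2, v3, v4⟩
      · subst e
        exact ⟨u, u1, u2, hc, anc_refl h u1 u2⟩
      · have kr := anc_key h t1 t2 G
        exact ⟨v, v1, v2, v3, anc_trans h v1 v2 v4 (child_anc h kr.1 kr.2 u1 u2 hc).1⟩) s H
  rcases this with e | e
  · exact absurd e ne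
  · exact e

/-- a proper ancestor lies outside the piece -/
theorem anc_out (h : Lam L R a b) {t s : ℤ} (t1 : L < t) (t2 : t < R) (H : Anc a b t s)
    (ne : t ≠ s) : t ≤ a s ∨ b s ≤ t := by
  have := anc_sub h t1 t2 H
  omega

theorem exists_top (h : Lam L R a b) {u v : ℤ} (u1 : L < u) (uv : u ≤ v) (v2 : v < R) :
    ∃ k, u ≤ k ∧ k ≤ v ∧ a k < u ∧ v < b k := by
  obtain ⟨k, hk, mx⟩ := Finset.exists_max_image (Finset.Icc u v) (fun k => b k - a k)
    ⟨u, Finset.mem_Icc.2 ⟨le_rfl, uv⟩⟩
  rw [Finset.mem_Icc] at hk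
  have p := h.pl k (by omega) (by omega)
  refine ⟨k, hk.1, hk.2, ?_, ?_⟩
  · by_contra hc
    have l4 := h.l4 k (by omega) (by omega) (by omega)
    have pa := h.pl (a k) (by omega) (by omega)
    have := mx (a k) (Finset.mem_Icc.2 ⟨by omega, by omega⟩)
    omega
  · by_contra hc
    have l3 := h.l3 k (by omega) (by omega) (by omega)
    have pa := h.pl (b k) (by omega) (by omega)
    have := mx (b k) (Finset.mem_Icc.2 ⟨by omega, by omega⟩)
    omega

end

end Pool.Agent.Lib.TV19
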