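import Pool.Agent.Lib.TV19.Tr

set_option autoImplicit false
set_option linter.unusedVariables false

namespace Pool.Agent.Lib.TV19

open Pool.Agent.Lib.MP_3ecc11_lc

namespace Sys

variable {S : Sys}

theorem Key.refl {v : ℤ} (h : S.Key v) : Anc S.a S.b v v := anc_refl S.T h.1 h.2

theorem Key.of_anc {t v : ℤ} (h : S.Key t) (H : Anc S.a S.b t v) : S.Key v := anc_key S.T h.1 h.2 H

theorem Key.sub {t v : ℤ} (h : S.Key t) (H : Anc S.a S.b t v) :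
    S.a t ≤ S.a v ∧ S.b v ≤ S.b t ∧ (v < t → S.b v ≤ t) ∧ (t < v → t ≤ S.a v) :=
  anc_sub S.T h.1 h.2 H

theorem Key.trans {t u v : ℤ} (h : S.Key t) (H : Anc S.a S.b t u) (G : Anc S.a S.b u v) :
    Anc S.a S.b t v := anc_trans S.T h.1 h.2 H G

theorem Key.antisymm {t v : ℤ} (h : S.Key t) (H : Anc S.a S.b t v) (G : Anc S.a S.b v t) : t = v :=
  anc_antisymm S.T h.1 h.2 H G

theorem Key.total {t s v : ℤ} (h : S.Key t) (k : S.Key s) (H : Anc S.a S.b t v)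
    (G : Anc S.a S.b s v) : Anc S.a S.b t s ∨ Anc S.a S.b s t :=
  anc_total S.T h.1 h.2 k.1 k.2 H G

theorem Key.pl {t : ℤ} (h : S.Key t) : S.L ≤ S.a t ∧ S.a t < t ∧ t < S.b t ∧ S.b t ≤ S.R :=
  S.T.pl t h.1 h.2

theorem Key.lam {t : ℤ} (h : S.Key t) : Lam (S.a t) (S.b t) (S.P t) (S.Q t) := S.lam t h.1 h.2

theorem Key.child {t u : ℤ} (h : S.Key t) (k : S.Key u) (H : Child S.a S.b t u) :
    Anc S.a S.b t u ∧ t ≠ u ∧ ¬ Anc S.a S.b u t := child_anc S.T h.1 h.2 k.1 k.2 H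

theorem Key.out {t s : ℤ} (h : S.Key t) (H : Anc S.a S.b t s) (ne : t ≠ s) :
    t ≤ S.a s ∨ S.b s ≤ t := anc_out S.T h.1 h.2 H ne

theorem stepR {t u c : ℤ} (ht : S.Key t) (hu : S.Key u) (e1 : S.a u = t) (e2 : S.b u = S.b t)
    (c1 : t < c) (c2 : c < S.b t) :
    (t < S.P t c ∧ S.P u c = S.P t c ∧ S.Q u c = S.Q t c) ∨
    (S.P t c ≤ t ∧ S.P u c = t ∧ S.Q u c = S.Q t c) ∨
    (S.P t c ≤ t ∧ S.P u c = t ∧ S.Q t c < S.b t ∧ S.Q u c = S.Q t (S.Q t c)) ∨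
    (S.P t c ≤ t ∧ t < S.P u c ∧ S.P u c < c ∧ S.P t (S.P u c) ≤ t ∧ S.Q t (S.P u c) = c ∧
      S.Q u c = S.Q t c ∧ S.P u (S.P u c) = t ∧ S.Q u (S.P u c) = S.Q t c) := by
  obtain ⟨W, hW⟩ := S.trR t u ht.1 ht.2 hu.1 hu.2 e1 e2
  have p := ht.pl
  by_cases h1 : c ∈ W
  · have := hW.win c h1
    omega
  by_cases h2 : ∃ y ∈ W, S.Q t y = c
  · obtain ⟨y, hy, rfl⟩ := h2
    obtain ⟨a1, a2, a3, a4, a5, a6, a7, a8, a9⟩ := hW.win y hy
    have l3 := ht.lam.l3 y (by omega) a2 a4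
    have pl := ht.lam.pl y (by omega) a2
    rw [a8]
    omega
  · have := hW.oth c c1 c2 h1 (fun y hy e => h2 ⟨y, hy, e⟩)
    omega

theorem stepL {t u c : ℤ} (ht : S.Key t) (hu : S.Key u) (e1 : S.b u = t) (e2 : S.a u = S.a t)
    (c1 : c < t) (c2 : S.a t < c) :
    (S.Q t c < t ∧ S.P u c = S.P t c ∧ S.Q u c = S.Q t c) ∨
    (t ≤ S.Q t c ∧ S.Q u c = t ∧ S.P u c = S.P t c) ∨
    (t ≤ S.Q t c ∧ S.Q u c = t ∧ S.a t < S.P t c ∧ S.P u c = S.P t (S.P t c)) ∨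
    (t ≤ S.Q t c ∧ S.Q u c < t ∧ c < S.Q u c ∧ t ≤ S.Q t (S.Q u c) ∧ S.P t (S.Q u c) = c ∧
      S.P u c = S.P t c ∧ S.Q u (S.Q u c) = t ∧ S.P u (S.Q u c) = S.P t c) := by
  obtain ⟨W, hW⟩ := S.trL t u ht.1 ht.2 hu.1 hu.2 e1 e2
  have p := ht.pl
  by_cases h1 : c ∈ W
  · have := hW.win c h1
    omega
  by_cases h2 : ∃ y ∈ W, S.P t y = c
  · obtain ⟨y, hy, rfl⟩ := h2
    obtain ⟨a1, a2, a3, a4, a5, a6, a7, a8, a9⟩ := hW.win y hy
    have l4 := ht.lam.l4 y a2 (by omega) a4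
    have pl := ht.lam.pl y a2 (by omega)
    rw [a8]
    omega
  · have := hW.oth c c1 c2 h1 (fun y hy e => h2 ⟨y, hy, e⟩)
    omega

theorem step_unaff {t u c : ℤ} (ht : S.Key t) (hu : S.Key u) (H : Child S.a S.b t u)
    (hc : Anc S.a S.b u c) (na : ¬ S.Aff t c) : S.P u c = S.P t c ∧ S.Q u c = S.Q t c := by
  unfold Aff at na
  unfold Anc at hc
  rcases H with ⟨e1, e2⟩ | ⟨e1, e2⟩
  · have := stepR (c := c) ht hu e1 e2 (by omega) (by omega)
    omega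
  · have := stepL (c := c) ht hu e1 e2 (by omega) (by omega)
    omega

/-- freezing -/
theorem freeze {t s c : ℤ} (ht : S.Key t) (H : Anc S.a S.b t s) (hc : Anc S.a S.b t c)
    (h1 : S.a s < S.P t c) (h2 : S.Q t c < S.b s) : S.P s c = S.P t c ∧ S.Q s c = S.Q t c := by
  have pc := ht.lam.pl c hc.1 hc.2
  refine anc_ind S.T ht.1 ht.2
    (fun r => Anc S.a S.b r s → S.P r c = S.P t c ∧ S.Q r c = S.Q t c) (fun _ => ⟨rfl, rfl⟩) ?_ s H
    (ht.of_anc H).refl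
  intro r u G u1 u2 hch M hus
  have kr := ht.of_anc G
  have ku : S.Key u := ⟨u1, u2⟩
  have ch := kr.child ku hch
  have rs := kr.trans ch.1 hus
  have ne : r ≠ s := by rintro rfl; exact ch.2.2 hus
  have o := kr.out rs ne
  have su := ku.sub hus
  have m := M rs
  have := step_unaff (c := c) kr ku hch (by unfold Anc; omega) (by unfold Aff; omega)
  omega

theorem noaff {s c v : ℤ} (hs : S.Key s) (hc : Anc S.a S.b s c)
    (o : s < S.P s c ∨ S.Q s c < s) (v1 : S.P s c < v) (v2 : v < S.Q s c) : ¬ S.Aff s v := by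
  have pc := hs.lam.pl c hc.1 hc.2
  unfold Aff
  rcases lt_trichotomy v c with k | k | k
  · have := hs.lam.l1 c v hc.1 hc.2 v1 k
    omega
  · subst k; omega
  · have := hs.lam.l2 c v hc.1 hc.2 k v2
    omega

/-- nodes strictly inside a frozen interval are not affected -/
theorem noaff_below {t s r c v : ℤ} (ht : S.Key t) (H : Anc S.a S.b t s) (G : Anc S.a S.b s r)
    (ne : s ≠ r) (hc : Anc S.a S.b t c) (h1 : S.a r < S.P t c) (h2 : S.Q t c < S.b r)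
    (v1 : S.P t c < v) (v2 : v < S.Q t c) : ¬ S.Aff s v := by
  have ks := ht.of_anc H
  have su := ks.sub G
  have o := ks.out G ne
  have pc := ht.lam.pl c hc.1 hc.2
  have f := freeze ht H hc (by omega) (by omega)
  exact noaff (c := c) ks (by unfold Anc; omega) (by omega) (by omega) (by omega)

/-- a hidden node is frozen or was lost by a link -/
theorem hb {t s c : ℤ} (ht : S.Key t) (H : Anc S.a S.b t s) (hc : Anc S.a S.b s c)
    (h1 : S.a s < S.P s c) (h2 : S.Q s c < S.b s) :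
    (S.P t c = S.P s c ∧ S.Q t c = S.Q s c) ∨
    ∃ τ, Anc S.a S.b t τ ∧ Anc S.a S.b τ s ∧ τ ≠ s ∧ S.IsLink ⟨τ, S.P s c, c, S.Q s c⟩ := by
  refine anc_ind S.T ht.1 ht.2
    (fun r => Anc S.a S.b r c → S.a r < S.P r c → S.Q r c < S.b r →
      (S.P t c = S.P r c ∧ S.Q t c = S.Q r c) ∨
      ∃ τ, Anc S.a S.b t τ ∧ Anc S.a S.b τ r ∧ τ ≠ r ∧ S.IsLink ⟨τ, S.P r c, c, S.Q r c⟩)
    (fun _ _ _ => Or.inl ⟨rfl, rfl⟩) ?_ s H hc h1 h2
  intro r u G u1 u2 hch M g0 g1 g2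
  have kr := ht.of_anc G
  have ku : S.Key u := ⟨u1, u2⟩
  have ch := kr.child ku hch
  have su := kr.sub ch.1
  by_cases af : S.Aff r c
  · exact Or.inr ⟨r, G, ch.1, ch.2.1, kr, af, u, ku, hch, g0, rfl, rfl, g1, g2⟩
  · have e := step_unaff kr ku hch g0 af
    rcases M (kr.trans ch.1 g0) (by omega) (by omega) with m | ⟨τ, m1, m2, m3, m4⟩
    · exact Or.inl (by omega)
    · refine Or.inr ⟨τ, m1, (ht.of_anc m1).trans m2 ch.1, ?_, ?_⟩
      · rintro rfl; exact ch.2.2 m2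
      · rw [e.1, e.2]; exact m4

/-- facts on a link to the right of its time -/
theorem IsLink.right {x : Lnk} (h : S.IsLink x) (hx : x.t < x.m) :
    x.t < x.lo ∧ x.lo < x.m ∧ x.m < x.hi ∧ x.hi < S.b x.t ∧ S.P x.t x.lo ≤ x.t ∧
      S.P x.t x.m ≤ x.t ∧ S.P x.t x.hi ≤ x.t ∧ S.Q x.t x.lo = x.m ∧ S.Q x.t x.m = x.hi ∧
      ∃ u, S.Key u ∧ S.a u = x.t ∧ S.b u = S.b x.t ∧ S.P u x.lo = x.t ∧ S.Q u x.lo = x.hi ∧
        S.P u x.m = x.lo ∧ S.Q u x.m = x.hi := by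
  obtain ⟨kt, af, u, ku, hch, hm, e1, e2, e3, e4⟩ := h
  have p := kt.pl
  unfold Aff at af
  unfold Anc at hm
  rcases hch with ⟨c1, c2⟩ | ⟨c1, c2⟩
  · have st := stepR (c := x.m) kt ku c1 c2 hx (by omega)
    have pm := kt.lam.pl x.m (by omega) (by omega)
    have l3 := kt.lam.l3 x.m (by omega) (by omega)
    rw [e1, e2] at st
    have q : S.Q x.t x.m = x.hi := by omega
    rw [q] at l3 pm
    refine ⟨by omega, by omega, by omega, by omega, by omega, by omega, by omega, by omega,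
      by omega, u, ku, c1, c2, by omega, by omega, e1, e2⟩
  · omega

/-- facts on a link to the left of its time -/
theorem IsLink.left {x : Lnk} (h : S.IsLink x) (hx : x.m < x.t) :
    x.hi < x.t ∧ x.lo < x.m ∧ x.m < x.hi ∧ S.a x.t < x.lo ∧ x.t ≤ S.Q x.t x.lo ∧
      x.t ≤ S.Q x.t x.m ∧ x.t ≤ S.Q x.t x.hi ∧ S.P x.t x.hi = x.m ∧ S.P x.t x.m = x.lo ∧
      ∃ u, S.Key u ∧ S.b u = x.t ∧ S.a u = S.a x.t ∧ S.Q u x.hi = x.t ∧ S.P u x.hi = x.lo ∧
        S.P u x.m = x.lo ∧ S.Q u x.m = x.hi := by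
  obtain ⟨kt, af, u, ku, hch, hm, e1, e2, e3, e4⟩ := h
  have p := kt.pl
  unfold Aff at af
  unfold Anc at hm
  rcases hch with ⟨c1, c2⟩ | ⟨c1, c2⟩
  · omega
  · have st := stepL (c := x.m) kt ku c1 c2 hx (by omega)
    have pm := kt.lam.pl x.m (by omega) (by omega)
    have l4 := kt.lam.l4 x.m (by omega) (by omega)
    rw [e1, e2] at st
    have q : S.P x.t x.m = x.lo := by omega
    rw [q] at l4 pm
    refine ⟨by omega, by omega, by omega, by omega, by omega, by omega, by omega, by omega,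
      by omega, u, ku, c1, c2, by omega, by omega, e1, e2⟩

theorem IsLink.side {x : Lnk} (h : S.IsLink x) : x.t < x.m ∨ x.m < x.t := by
  have := h.2.1
  unfold Aff at this
  omega

/-- two-sided facts on a link -/
theorem IsLink.basic {x : Lnk} (h : S.IsLink x) :
    S.Key x.t ∧ x.lo < x.m ∧ x.m < x.hi ∧ S.a x.t < x.lo ∧ x.hi < S.b x.t ∧
      (x.t < x.lo ∨ x.hi < x.t) ∧ S.Aff x.t x.lo ∧ S.Aff x.t x.m ∧ S.Aff x.t x.hi := by
  have p := h.1.pl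
  rcases h.side with k | k
  · obtain ⟨a1, a2, a3, a4, a5, a6, a7, a8, a9, -⟩ := h.right k
    unfold Aff
    exact ⟨h.1, by omega, by omega, by omega, by omega, by omega, by omega, by omega, by omega⟩
  · obtain ⟨a1, a2, a3, a4, a5, a6, a7, a8, a9, -⟩ := h.left k
    unfold Aff
    exact ⟨h.1, by omega, by omega, by omega, by omega, by omega, by omega, by omega, by omega⟩

end Sys

end Pool.Agent.Lib.TV19
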