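import Pool.Agent.Lib.TV19.TS

set_option autoImplicit false
set_option linter.unusedVariables false

namespace Pool.Agent.Lib.TV19

open Pool.Agent.Lib.MP_3ecc11_lc

namespace Sys

variable {S : Sys} {d : ℤ → ℤ → ℕ}

theorem Ultra.self (U : S.Ultra d) {u : ℤ} (k : S.Key u) : d u u = 0 := by
  by_contra h
  have := U.d2 u u u k k k rfl (by omega)
  omega

theorem Ultra.ball (U : S.Ultra d) {u : ℤ} (ku : S.Key u) (k : ℕ) :
    ∃ M, S.Key M ∧ Anc S.a S.b M u ∧ (∀ v, S.Key v → d u v ≤ k → Anc S.a S.b M v) ∧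
      ∀ s v, S.Key s → S.Key v → d u v ≤ k → Anc S.a S.b s v → k < d s v →
        Anc S.a S.b s M ∧ s ≠ M ∧ d s v ≤ d s M := by
  obtain ⟨M, kM, m1, m2⟩ := U.d6 u k ku
  refine ⟨M, kM, m2 u ku (by rw [U.self ku]; omega), m2, fun s v ks kv h1 h2 h3 => ?_⟩
  have Mv := m2 v kv h1
  have e1 := U.d1 M u v kM ku kv
  have e2 := U.sym u M ku kM
  have e3 := U.d1 s M v ks kM kv
  have nM : ¬ Anc S.a S.b M s := by
    intro H
    have := (U.d3 M s v kM H h2).2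
    omega
  rcases ks.total kM h2 Mv with c | c
  · refine ⟨c, ?_, by omega⟩
    rintro rfl
    exact nM c
  · exact absurd c nM

theorem FLink.lev (U : S.Ultra d) {x : Lnk} (h : S.FLink d x) :
    0 < d (S.w x) (S.e x) ∧ d x.t (S.e x) = d x.t (S.w x) ∧ Anc S.a S.b x.t (S.e x) := by
  obtain ⟨l, ne, f⟩ := h
  obtain ⟨kw, -, -, -, -, tw, -⟩ := l.geoW
  obtain ⟨ke, we, ne', -⟩ := l.geo ne
  have a1 := U.d1 x.t (S.w x) (S.e x) l.1 kw ke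
  have a2 := (U.d3 x.t (S.w x) (S.e x) l.1 tw we).1
  refine ⟨?_, by omega, l.1.trans tw we⟩
  by_contra hc
  exact ne' (U.d0 _ _ kw ke (by omega))

theorem Same.symm (U : S.Ultra d) {x y : Lnk} (hx : S.FLink d x) (hy : S.FLink d y)
    (h : S.Same d x y) : S.Same d y x := by
  obtain ⟨h1, h2, h3, h4⟩ := h
  have := U.sym _ _ (hx.1.geo hx.2.1).1 (hy.1.geo hy.2.1).1
  exact ⟨h1.symm, h2.symm, by omega, h4.symm⟩

theorem Same.trans (U : S.Ultra d) {x y z : Lnk} (hx : S.FLink d x) (hy : S.FLink d y)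
    (hz : S.FLink d z) (h : S.Same d x y) (k : S.Same d y z) : S.Same d x z := by
  obtain ⟨h1, h2, h3, h4⟩ := h
  obtain ⟨k1, k2, k3, k4⟩ := k
  have := U.d1 _ _ _ (hx.1.geo hx.2.1).1 (hy.1.geo hy.2.1).1 (hz.1.geo hz.2.1).1
  exact ⟨h1.trans k1, h2.trans k2, by omega, h4.trans k4⟩

/-- geometry of an incidence class -/
theorem cls_core (U : S.Ultra d) {x y : Lnk} (hx : S.FLink d x) (hy : S.FLink d y)
    (h : S.Same d x y) :
    ∃ M γ, S.Key M ∧ Anc S.a S.b x.t M ∧ x.t ≠ M ∧ Anc S.a S.b y.t M ∧ y.t ≠ M ∧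
      Anc S.a S.b M (S.w x) ∧ Anc S.a S.b M (S.w y) ∧ d y.t x.t < d x.t M ∧
      ((S.w x < x.m ∧ x.lo ≤ γ ∧ γ < x.m ∧ y.lo ≤ γ ∧ γ < y.m) ∨
        (x.m < S.w x ∧ x.m ≤ γ ∧ γ < x.hi ∧ y.m ≤ γ ∧ γ < y.hi)) := by
  obtain ⟨h1, h2, h3, h4⟩ := h
  obtain ⟨b0, ea, te⟩ := hx.lev U
  obtain ⟨b0', ea', te'⟩ := hy.lev U
  obtain ⟨lx, nx, fx⟩ := hx
  obtain ⟨ly, ny, fy⟩ := hy
  obtain ⟨kw, w1, w2, w3, w4, tw, -⟩ := lx.geoW
  obtain ⟨kw', w1', w2', w3', w4', tw', -⟩ := ly.geoW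
  obtain ⟨ke, we, -, -, gx⟩ := lx.geo nx
  obtain ⟨ke', we', -, -, gy⟩ := ly.geo ny
  have ee := U.self ke
  obtain ⟨M, kM, Me, m1, m2⟩ := U.ball ke (d x.t (S.e x) - 1)
  obtain ⟨H, kH, He, n1, n2⟩ := U.ball ke (d (S.w x) (S.e x) - 1)
  obtain ⟨a1, a2, a3⟩ := m2 x.t (S.e x) lx.1 ke (by omega) te (by omega)
  obtain ⟨c1, c2, c3⟩ := m2 y.t (S.e y) ly.1 ke' (by omega) te' (by omega)
  have s1 := U.sym _ _ ke kw
  have s2 := U.sym _ _ ke' kw'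
  have s3 := U.d1 _ _ _ ke ke' kw'
  have Mw := m1 (S.w x) kw (by omega)
  have Mw' := m1 (S.w y) kw' (by omega)
  obtain ⟨p1, p2, -⟩ := n2 (S.w x) (S.e x) kw ke (by omega) we (by omega)
  obtain ⟨q1, q2, -⟩ := n2 (S.w y) (S.e y) kw' ke' (by omega) we' (by omega)
  have He' := n1 (S.e y) ke' (by omega)
  have o1 := kw.out p1 p2
  have o2 := kw'.out q1 q2
  have u1 := kH.sub He
  have u2 := kH.sub He'
  have hd : d y.t x.t < d x.t M := by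
    clear gx gy o1 o2 u1 u2 s3 h1
    have t1 := U.d1 _ _ _ ly.1 ke' ke
    have t2 := U.d1 _ _ _ ly.1 ke ke'
    have t3 := U.sym _ _ ke ke'
    have t4 := U.sym _ _ ke ly.1
    have t5 := U.sym _ _ ke lx.1
    have t6 := U.d2 _ _ _ ke ly.1 lx.1 (by omega) (by omega)
    omega
  unfold Anc at He He'
  clear s1 s2 s3 c3 a3 ee fx fy ea ea' b0 b0' h2 h3 h4
  by_cases c : S.w x < x.m
  · have c' := h1.1 c
    clear h1
    refine ⟨M, S.a H, kM, a1, a2, c1, c2, Mw, Mw', hd, Or.inl ?_⟩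
    rcases gx with gx | gx <;> rcases gy with gy | gy <;> omega
  · have c' : ¬ S.w y < y.m := fun k => c (h1.2 k)
    clear h1
    refine ⟨M, S.b H - 1, kM, a1, a2, c1, c2, Mw, Mw', hd, Or.inr ?_⟩
    rcases gx with gx | gx <;> rcases gy with gy | gy <;> omega

theorem Same.cmp (U : S.Ultra d) {x y : Lnk} (hx : S.FLink d x) (hy : S.FLink d y)
    (h : S.Same d x y) : (Anc S.a S.b x.t y.t ∨ Anc S.a S.b y.t x.t) ∧ (x.t = y.t → x = y) := by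
  obtain ⟨M, γ, kM, a1, a2, a3, a4, a5, a6, a7, a8⟩ := cls_core U hx hy h
  refine ⟨hx.1.1.total hy.1.1 a1 a3, fun e => ?_⟩
  have b1 := hx.1.basic
  have b2 := hy.1.basic
  rcases hx.1.disj hy.1 e with k | k
  · exact k
  · omega

/-- an earlier member of the class -/
theorem cls_early (U : S.Ultra d) {x y : Lnk} (hx : S.FLink d x) (hy : S.FLink d y)
    (h : S.Same d x y) (H : Anc S.a S.b y.t x.t) (ne : y.t ≠ x.t) :
    ∃ M, S.Key M ∧ Anc S.a S.b x.t M ∧ x.t ≠ M ∧ S.a M < x.lo ∧ x.hi < S.b M ∧ S.a M < y.lo ∧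
      y.hi < S.b M ∧ d y.t x.t < d x.t M ∧
      ((S.w x < x.m ∧ y.hi ≤ x.m) ∨ (x.m < S.w x ∧ x.m ≤ y.lo ∧ y.hi ≤ x.hi)) := by
  obtain ⟨M, γ, kM, a1, a2, a3, a4, a5, a6, a7, a8⟩ := cls_core U hx hy h
  obtain ⟨kx, b1, b2, b3, b4, b5, b6, b7, b8⟩ := hx.1.basic
  obtain ⟨ky, c1, c2, -⟩ := hy.1.basic
  obtain ⟨kw, w1, w2, w3, w4, -⟩ := hx.1.geoW
  obtain ⟨kw', w1', w2', w3', w4', -⟩ := hy.1.geoW
  have s1 := kM.sub a5
  have s2 := kM.sub a6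
  have xw := kx.trans a1 a6
  have nw : x.t ≠ S.w y := by
    intro e
    rw [← e] at a6
    exact a2 (kx.antisymm a1 a6)
  have n1 : ¬ (y.lo < x.m ∧ x.m < y.hi) := fun k => hy.1.noaff H ne xw nw k.1 k.2 b7
  have n2 : ¬ (y.lo < x.hi ∧ x.hi < y.hi) := fun k => hy.1.noaff H ne xw nw k.1 k.2 b8
  exact ⟨M, kM, a1, a2, by omega, by omega, by omega, by omega, a7, by omega⟩

end Sys

end Pool.Agent.Lib.TV19
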