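import Pool.Agent.Lib.TV19.FL1

set_option autoImplicit false
set_option linter.unusedVariables false

namespace Pool.Agent.Lib.TV19

open Pool.Agent.Lib.MP_3ecc11_lc

namespace Sys

variable (S : Sys)

def Free (u γ : ℤ) : Prop :=
  ∃ c, Anc S.a S.b u c ∧ S.P u c = S.a u ∧ S.Q u c < S.b u ∧ S.item c (S.Q u c) = γ

def Exp (t γ : ℤ) : Prop :=
  ∃ c, t < c ∧ c < S.b t ∧ S.P t c ≤ t ∧ S.Q t c < S.b t ∧ S.item c (S.Q t c) = γ

def Junc (t γ : ℤ) : Prop :=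
  ∃ u c, S.Key u ∧ S.b u = t ∧ S.a u = S.a t ∧ S.a t < c ∧ c < t ∧ t ≤ S.Q t c ∧
    S.P t c = S.a t ∧ S.item c (S.Q u c) = γ

def Vsrc (t v : ℤ) : Prop :=
  t < v ∧ v < S.b t ∧ (S.P t v = S.a t ∨ S.Q t v = S.b t) ∧
    ∀ v', t < v' → v' < v → S.a t < S.P t v' ∧ S.Q t v' < S.b t

def Clean (σ : ℤ) (x : Lnk) : Prop :=
  ∀ u, Anc S.a S.b σ u → σ ≠ u → Anc S.a S.b u x.t → S.Free u (S.g x)

variable {S} {d : ℤ → ℤ → ℕ}

theorem exp_self {x : Lnk} (h : S.IsLink x) (ne : S.w x ≠ x.m) (hx : x.t < x.m) :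
    S.Exp x.t (S.g x) := by
  obtain ⟨a1, a2, a3, a4, a5, a6, a7, a8, a9, -⟩ := h.right hx
  obtain ⟨-, -, -, -, gx⟩ := h.geo ne
  rcases gx with gx | gx
  · exact ⟨x.m, hx, by omega, a6, by omega, by rw [a9]; omega⟩
  · exact ⟨x.lo, a1, by omega, a5, by omega, by rw [a8]; omega⟩

theorem free_R {t u γ : ℤ} (ht : S.Key t) (hu : S.Key u) (e1 : S.a u = t) (e2 : S.b u = S.b t)
    (h : S.Free u γ) : S.Exp t γ := by
  obtain ⟨c, c0, c1, c2, c3⟩ := h
  unfold Anc at c0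
  have p := ht.pl
  have pc := ht.lam.pl c (by omega) (by omega)
  have st := stepR (c := c) ht hu e1 e2 (by omega) (by omega)
  rcases st with st | st | st | st
  · omega
  · exact ⟨c, by omega, by omega, st.1, by omega, by rw [← st.2.2]; exact c3⟩
  · obtain ⟨s1, s2, s3, s4⟩ := st
    have pm := ht.lam.pl (S.Q t c) (by omega) s3
    have l3 := ht.lam.l3 c (by omega) (by omega) s3
    have i := S.i1 c (S.Q u c) (by omega) (by omega) (by omega)
    rcases lt_or_ge γ (S.Q t c) with k | k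
    · refine ⟨c, by omega, by omega, s1, s3, ?_⟩
      rw [← c3]
      exact S.i2 c (S.Q u c) c (S.Q t c) (by omega) le_rfl (by omega) (by omega) (by omega)
        (by omega)
    · refine ⟨S.Q t c, by omega, s3, by omega, by omega, ?_⟩
      rw [← c3, ← s4]
      exact S.i2 c (S.Q u c) (S.Q t c) (S.Q u c) (by omega) (by omega) (by omega) (by omega) le_rfl
        (by omega)
  · omega

theorem free_L {t u γ : ℤ} (ht : S.Key t) (hu : S.Key u) (e1 : S.b u = t) (e2 : S.a u = S.a t)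
    (h : S.Free u γ) : S.Free t γ ∨ S.Junc t γ := by
  obtain ⟨c, c0, c1, c2, c3⟩ := h
  unfold Anc at c0
  have p := ht.pl
  have st := stepL (c := c) ht hu e1 e2 (by omega) (by omega)
  rcases st with st | st | st | st
  · exact Or.inl ⟨c, by unfold Anc; omega, by omega, by omega, by rw [← st.2.2]; exact c3⟩
  · omega
  · omega
  · exact Or.inr ⟨u, c, hu, e1, e2, by omega, by omega, by omega, by omega, c3⟩

theorem junc_uniq {t γ γ' : ℤ} (ht : S.Key t) (h : S.Junc t γ) (k : S.Junc t γ') : γ = γ' := by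
  obtain ⟨u, c, ku, a1, a2, a3, a4, a5, a6, a7⟩ := h
  obtain ⟨v, c', kv, b1, b2, b3, b4, b5, b6, b7⟩ := k
  have p := ht.pl
  have uv : u = v := by
    have := ku.pl; have := kv.pl
    exact ku.antisymm (by unfold Anc; omega) (by unfold Anc; omega)
  subst uv
  have cc : c = c' := by
    rcases lt_trichotomy c c' with k | k | k
    · have := ht.lam.l2 c c' a3 (by omega) k (by omega)
      omega
    · exact k
    · have := ht.lam.l2 c' c b3 (by omega) k (by omega)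
      omega
  subst cc
  omega

theorem vsrc_uniq {t v v' : ℤ} (h : S.Vsrc t v) (k : S.Vsrc t v') : v = v' := by
  obtain ⟨a1, a2, a3, a4⟩ := h
  obtain ⟨b1, b2, b3, b4⟩ := k
  rcases lt_trichotomy v v' with c | c | c
  · have := b4 v a1 c; omega
  · exact c
  · have := a4 v' b1 c; omega

theorem Exp.mem {A : ℤ → Finset ℤ} (hA : S.Items A) {t γ : ℤ} (ht : S.Key t) (h : S.Exp t γ) :
    γ ∈ A t := by
  obtain ⟨c, c1, c2, c3, c4, c5⟩ := h
  rw [← c5]
  exact (hA t c ht (Or.inl ⟨c1, c2, c3⟩)).1 c4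

theorem clean_exp {x : Lnk} (h : S.IsLink x) (ne : S.w x ≠ x.m) (hx : x.t < x.m) {σ t : ℤ}
    (kσ : S.Key σ) (hc : S.Clean σ x) (t1 : Anc S.a S.b σ t) (t2 : Anc S.a S.b t x.t)
    (t3 : t < x.m) : S.Exp t (S.g x) := by
  by_cases e : t = x.t
  · rw [e]; exact exp_self h ne hx
  have kt := kσ.of_anc t1
  obtain ⟨u, u1, u2, u3, u4⟩ := exists_child S.T kt.1 kt.2 t2 e
  have ku : S.Key u := ⟨u1, u2⟩
  have ch := kt.child ku u3
  have f := hc u (kσ.trans t1 ch.1) (by rintro rfl; exact ch.2.2 t1) u4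
  have su := ku.sub u4
  obtain ⟨-, a1, a2, a3, a4, -⟩ := h.basic
  rcases u3 with ⟨c1, c2⟩ | ⟨c1, c2⟩
  · exact free_R kt ku c1 c2 f
  · omega

/-- after a loss the item is not exposed as a free item -/
theorem clean_uniq {x y : Lnk} (h : S.IsLink x) (ne : S.w x ≠ x.m) (k : S.IsLink y)
    (ne' : S.w y ≠ y.m) (hy : y.t < y.m) (e : S.g x = S.g y) {σ : ℤ} (kσ : S.Key σ)
    (hc : S.Clean σ x) (t1 : Anc S.a S.b σ y.t) (t2 : Anc S.a S.b y.t x.t) (t3 : y.t ≠ x.t) :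
    False := by
  have kt := k.1
  obtain ⟨u, u1, u2, u3, u4⟩ := exists_child S.T kt.1 kt.2 t2 t3
  have ku : S.Key u := ⟨u1, u2⟩
  have ch := kt.child ku u3
  obtain ⟨c, c0, c1, c2, c3⟩ := hc u (kσ.trans t1 ch.1) (fun e => ch.2.2 (e ▸ t1)) u4
  have su := ku.sub u4
  obtain ⟨-, a1, a2, a3, a4, -⟩ := h.basic
  obtain ⟨-, -, -, -, gx⟩ := h.geo ne
  obtain ⟨-, -, -, -, gy⟩ := k.geo ne'
  obtain ⟨b1, b2, b3, b4, -, -, -, -, -, v, kv, v1, v2, v3, v4, -⟩ := k.right hy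
  have gx' : x.lo ≤ S.g x ∧ S.g x < x.hi := by omega
  have gy' : y.lo ≤ S.g y ∧ S.g y < y.hi ∧ S.w y ≠ S.g y ∧ S.w y ≠ S.g y + 1 := by omega
  clear gx gy
  have pu := ku.pl
  have pv := kv.pl
  have uv : u = v := by
    unfold Child at u3
    exact ku.antisymm (by unfold Anc; omega) (by unfold Anc; omega)
  subst uv
  unfold Anc at c0
  have pc := ku.lam.pl c c0.1 c0.2
  have i := S.i1 c (S.Q u c) (by omega) (by omega) (by omega)
  have cc : c = y.lo := by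
    rcases lt_trichotomy c y.lo with j | j | j
    · have := ku.lam.l2 c y.lo c0.1 c0.2 j (by omega)
      omega
    · exact j
    · have := ku.lam.l2 y.lo c (by omega) (by omega) j (by omega)
      omega
  rw [cc, v4] at i c3
  have : S.w y = S.top y.lo y.hi := rfl
  omega

theorem exists_sigma {x : Lnk} {s0 : ℤ} (k0 : S.Key s0) (H : Anc S.a S.b s0 x.t) :
    ∃ σ, Anc S.a S.b s0 σ ∧ Anc S.a S.b σ x.t ∧ S.Clean σ x ∧ (σ = s0 ∨ ¬ S.Free σ (S.g x)) := by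
  refine anc_ind S.T k0.1 k0.2 (fun r => ∃ σ, Anc S.a S.b s0 σ ∧ Anc S.a S.b σ r ∧
    (∀ u, Anc S.a S.b σ u → σ ≠ u → Anc S.a S.b u r → S.Free u (S.g x)) ∧
    (σ = s0 ∨ ¬ S.Free σ (S.g x))) ?_ ?_ x.t H
  · exact ⟨s0, k0.refl, k0.refl, fun u u1 u2 u3 => absurd (k0.antisymm u1 u3) u2, Or.inl rfl⟩
  · intro r u G u1 u2 hch ⟨σ, s1, s2, s3, s4⟩
    have kr := k0.of_anc G
    have ku : S.Key u := ⟨u1, u2⟩
    have ch := kr.child ku hch
    have kσ := k0.of_anc s1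
    by_cases f : S.Free u (S.g x)
    · refine ⟨σ, s1, kσ.trans s2 ch.1, fun v v1 v2 v3 => ?_, s4⟩
      by_cases e : v = u
      · rw [e]; exact f
      · have kv := kσ.of_anc v1
        exact s3 v v1 v2 (anc_par S.T kv.1 kv.2 kr.1 kr.2 u1 u2 hch v3 e)
    · exact ⟨u, k0.trans G ch.1, ku.refl, fun v v1 v2 v3 => absurd (ku.antisymm v1 v3) v2, Or.inr f⟩

/-- a link inside the plateau whose loser lies below `M` is a P-link -/
theorem plink_of (U : S.Ultra d) {y : Lnk} (h : S.IsLink y) (ne : S.w y ≠ y.m) {s0 s M : ℤ}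
    (k0 : S.Key s0) (h1 : Anc S.a S.b s0 y.t) (h2 : Anc S.a S.b (S.w y) s) (h3 : Anc S.a S.b s M)
    (h4 : Anc S.a S.b M (S.e y)) (hd : d s0 s < d s M) : S.PLink d y := by
  obtain ⟨kw, -, -, -, -, tw, -⟩ := h.geoW
  have a1 := (U.d3 _ _ _ h.1 tw h2).1
  have a2 := (U.d3 _ _ _ k0 h1 (h.1.trans tw h2)).2
  have a3 := (U.d3 _ _ _ kw (kw.trans h2 h3) h4).1
  have a4 := (U.d3 _ _ _ kw h2 h3).2
  exact ⟨h, ne, by omega⟩

end Sys

end Pool.Agent.Lib.TV19
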