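import Pool.Agent.Lib.TV19.FL2

set_option autoImplicit false
set_option linter.unusedVariables false

namespace Pool.Agent.Lib.TV19

open Pool.Agent.Lib.MP_3ecc11_lc

namespace Sys

variable {S : Sys} {d : ℤ → ℤ → ℕ}

/-- the last case of the trace: all nodes between `σ` and `lo0` are hidden -/
theorem born_deep (U : S.Ultra d) {x : Lnk} (h : S.IsLink x) {s0 σ M lo0 m0 hi0 : ℤ}
    (k0 : S.Key s0) (h1 : Anc S.a S.b s0 σ) (n1 : s0 ≠ σ) (h2 : Anc S.a S.b σ x.t)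
    (kM : S.Key M) (h3 : Anc S.a S.b x.t M) (n3 : x.t ≠ M) (hd : d s0 x.t < d x.t M)
    (sM : σ ≤ S.a M) (b1 : S.a M < x.lo) (b2 : x.hi < S.b M) (b3 : S.a M < lo0) (b4 : hi0 < S.b M)
    (b5 : x.m ≤ lo0) (b6 : hi0 ≤ x.hi) (b7 : lo0 < m0) (b8 : m0 < hi0) (af : S.Aff s0 m0)
    (p0 : S.P σ m0 = lo0) (q0 : S.Q σ m0 = hi0)
    (hid : ∀ v, σ < v → v ≤ lo0 → S.a σ < S.P σ v ∧ S.Q σ v < S.b σ) :
    ∃ y, S.PLink d y ∧ Anc S.a S.b σ (S.w y) ∧ Anc S.a S.b (S.w y) x.t ∧ x.lo ≤ S.g y ∧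
      S.g y < x.hi := by
  classical
  have kσ := k0.of_anc h1
  obtain ⟨kx, a1, a2, a3, a4, a5, a6, a7, a8⟩ := h.basic
  have σM := kσ.trans h2 h3
  have su := kσ.sub σM
  have pσ := kσ.pl
  obtain ⟨n, hn, mx⟩ := Finset.exists_max_image ((Finset.Ioo (S.a σ) (S.b σ)).filter
    (fun c => S.P σ c ≤ lo0 ∧ hi0 ≤ S.Q σ c ∧ S.a M < S.P σ c ∧ S.Q σ c < S.b M))
    (fun c => S.Q σ c - S.P σ c) ⟨m0, by
      rw [Finset.mem_filter, Finset.mem_Ioo]; omega⟩
  simp only [Finset.mem_filter, Finset.mem_Ioo] at hn mx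
  obtain ⟨⟨n2, n4⟩, n5, n6, n7, n8⟩ := hn
  have pn := kσ.lam.pl n n2 n4
  -- the interval of `n` lies inside the upper part of the link
  have na : ∀ v, S.P σ n < v → v < S.Q σ n → ¬ S.Aff x.t v := fun v v1 v2 =>
    noaff_below kσ h2 h3 n3 (c := n) ⟨n2, n4⟩ n7 n8 v1 v2
  have in1 : x.m ≤ S.P σ n := by
    by_contra k
    exact na x.m (by omega) (by omega) a7
  have in2 : S.Q σ n ≤ x.hi := by
    by_contra k
    exact na x.hi (by omega) (by omega) a8
  obtain ⟨r, r1, r2, r3⟩ := exists_par kσ.lam n2 n4 (by omega)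
  have pr := kσ.lam.pl r r1 r2
  have mr := mx r
  have hr : S.a σ < S.P σ r ∧ S.Q σ r < S.b σ := by
    rcases r3 with ⟨c1, c2⟩ | ⟨c1, c2⟩
    · exact hid r (by omega) (by omega)
    · have := hid (S.P σ r) (by omega) (by omega)
      have := kσ.lam.l4 r r1 r2 (by omega)
      omega
  rcases hb k0 h1 (c := r) ⟨r1, r2⟩ hr.1 hr.2 with ⟨f1, f2⟩ | ⟨τ, t1, t2, t3, lk⟩
  · exfalso
    have o := k0.out h1 n1
    have rr : S.P σ r ≤ lo0 ∧ hi0 ≤ S.Q σ r := by unfold Child at r3; omega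
    exact noaff k0 (k0.trans h1 (v := r) ⟨r1, r2⟩) (by omega) (by omega) (by omega) af
  obtain ⟨kw, w1, w2, w3, w4, -⟩ := lk.geoW
  generalize hy : (⟨τ, S.P σ r, r, S.Q σ r⟩ : Lnk) = y at lk kw w1 w2 w3 w4
  have y1 : y.t = τ := by rw [← hy]
  have y2 : y.lo = S.P σ r := by rw [← hy]
  have y3 : y.m = r := by rw [← hy]
  have y4 : y.hi = S.Q σ r := by rw [← hy]
  have σw : Anc S.a S.b σ (S.w y) := by unfold Anc; omega
  have Mr : Anc S.a S.b M r := by unfold Child at r3; unfold Anc; omega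
  have out : S.P σ r ≤ S.a M ∨ S.b M ≤ S.Q σ r := by unfold Child at r3; omega
  have nM : ¬ Anc S.a S.b M (S.w y) := by
    intro k
    have := kM.sub k
    omega
  have wM : Anc S.a S.b (S.w y) M := by
    rcases kw.total kM (v := r) (by unfold Anc; omega) Mr with k | k
    · exact k
    · exact absurd k nM
  have ne : S.w y ≠ y.m := by
    intro e
    rw [e, y3] at nM
    exact nM Mr
  have ws : Anc S.a S.b (S.w y) x.t := by
    rcases kw.total kx wM h3 with k | k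
    · exact k
    by_cases e : x.t = S.w y
    · rw [← e]; exact kx.refl
    exfalso
    have na' : ∀ v, S.P σ r < v → v < S.Q σ r → ¬ S.Aff x.t v := fun v v1 v2 =>
      noaff_below kσ h2 k e (c := r) ⟨r1, r2⟩ (by omega) (by omega) v1 v2
    rcases r3 with ⟨c1, c2⟩ | ⟨c1, c2⟩
    · exact na' x.m (by omega) (by omega) a7
    · exact na' x.hi (by omega) (by omega) a8
  obtain ⟨ke, -, -, -, gy⟩ := lk.geo ne
  have fin : Anc S.a S.b M (S.e y) ∧ x.lo ≤ S.g y ∧ S.g y < x.hi := by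
    unfold Anc at nM ⊢
    clear mr out hr pσ su
    rcases r3 with ⟨c1, c2⟩ | ⟨c1, c2⟩ <;> rcases gy with gy | gy <;> omega
  exact ⟨y, plink_of U lk ne k0 (by rw [y1]; exact t1) ws h3 fin.1 hd, σw, ws, fin.2⟩

/-- the event that ends the trace -/
theorem trace_event (U : S.Ultra d) {x y : Lnk} (hx : S.FLink d x) (hy : S.FLink d y)
    (sx : x.t < x.m) (h : S.Same d x y) (H : Anc S.a S.b y.t x.t) (ne : y.t ≠ x.t) {σ : ℤ}
    (h1 : Anc S.a S.b y.t σ) (n1 : y.t ≠ σ) (h2 : Anc S.a S.b σ x.t) (hc : S.Clean σ x)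
    (nf : ¬ S.Free σ (S.g x)) :
    S.Junc σ (S.g x) ∨ (∃ v, S.Vsrc σ v ∧ x.lo ≤ v ∧ v < x.hi) ∨
    ∃ z, S.PLink d z ∧ Anc S.a S.b σ (S.w z) ∧ Anc S.a S.b (S.w z) x.t ∧ x.lo ≤ S.g z ∧
      S.g z < x.hi := by
  classical
  obtain ⟨M, kM, m1, m2, m3, m4, m5, m6, hd, ty⟩ := cls_early U hx hy h H ne
  obtain ⟨lx, nx, -⟩ := hx
  obtain ⟨ly, ny, -⟩ := hy
  obtain ⟨kx, a1, a2, a3, a4, -⟩ := lx.basic
  obtain ⟨ky, c1, c2, -, -, -, -, c3, -⟩ := ly.basic
  have kσ := ky.of_anc h1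
  have pσ := kσ.pl
  have σM := kσ.trans h2 m1
  have nσ : σ ≠ M := by
    rintro rfl
    exact m2 (kx.antisymm m1 h2)
  have o := kσ.out σM nσ
  have su := kσ.sub σM
  rcases o with o | o
  swap
  · -- the time is an R-operation
    left
    have e : σ ≠ x.t := by omega
    obtain ⟨u, u1, u2, u3, u4⟩ := exists_child S.T kσ.1 kσ.2 h2 e
    have ku : S.Key u := ⟨u1, u2⟩
    have ch := kσ.child ku u3
    have f := hc u ch.1 ch.2.1 u4
    have su := ku.sub u4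
    rcases u3 with ⟨d1, d2⟩ | ⟨d1, d2⟩
    · omega
    · rcases free_L kσ ku d1 d2 f with k | k
      · exact absurd k nf
      · exact k
  right
  obtain ⟨c, e1, e2, e3, e4, e5⟩ := clean_exp lx nx sx kσ hc kσ.refl h2 (by omega)
  have pc := kσ.lam.pl c (by omega) e2
  have e6 : S.a σ < S.P σ c := by
    by_contra k
    exact nf ⟨c, ⟨by omega, e2⟩, by omega, e4, e5⟩
  have i := S.i1 c (S.Q σ c) (by omega) (by omega) (by omega)
  rw [e5] at i
  obtain ⟨ke, -, -, eg, gx⟩ := lx.geo nx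
  have gx' : x.lo ≤ S.g x ∧ S.g x < x.hi ∧ (S.w x < x.m → x.m ≤ S.g x) := by omega
  clear gx
  rcases hb ky h1 (c := c) ⟨by omega, e2⟩ e6 e4 with ⟨f1, f2⟩ | ⟨τ, t1, t2, t3, lk⟩
  swap
  · right
    obtain ⟨kw, w1, w2, w3, w4, -⟩ := lk.geoW
    generalize hz : (⟨τ, S.P σ c, c, S.Q σ c⟩ : Lnk) = z at lk kw w1 w2 w3 w4
    have z1 : z.t = τ := by rw [← hz]
    have z2 : z.lo = S.P σ c := by rw [← hz]
    have z3 : z.m = c := by rw [← hz]
    have z4 : z.hi = S.Q σ c := by rw [← hz]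
    have wσ : S.w z = σ := kw.antisymm (by unfold Anc; omega) (by unfold Anc; omega)
    have nz : S.w z ≠ z.m := by omega
    obtain ⟨-, -, -, eg', gz⟩ := lk.geo nz
    have gz' : S.g z = S.g x := by
      rcases gz with gz | gz
      · rw [gz.2.2.2.2.2.2.2, z3, z4, e5]
      · omega
    refine ⟨z, plink_of U lk nz ky (by rw [z1]; exact t1) (by rw [wσ]; exact h2) m1
      (by unfold Anc; omega) hd, by rw [wσ]; exact kσ.refl, by rw [wσ]; exact h2, by omega,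
      by omega⟩
  have o' := ky.out h1 n1
  have na : ¬ (S.P σ c < y.m ∧ y.m < S.Q σ c) := fun k =>
    noaff ky (ky.trans h1 (v := c) ⟨by omega, e2⟩) (by omega) (by omega) (by omega) c3
  have ty' : x.m ≤ y.lo ∧ y.hi ≤ x.hi := by omega
  by_cases ex : ∃ v, σ < v ∧ v ≤ y.lo ∧ (S.P σ v = S.a σ ∨ S.Q σ v = S.b σ)
  · left
    obtain ⟨v0, hv0⟩ := ex
    obtain ⟨v, hv, mn⟩ := Finset.exists_min_image ((Finset.Ioc σ y.lo).filter
      (fun v => S.P σ v = S.a σ ∨ S.Q σ v = S.b σ)) (fun v => v) ⟨v0, by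
        rw [Finset.mem_filter, Finset.mem_Ioc]; omega⟩
    simp only [Finset.mem_filter, Finset.mem_Ioc] at hv mn
    refine ⟨v, ⟨hv.1.1, by omega, hv.2, fun v' v1 v2 => ?_⟩, ?_, by omega⟩
    · have := mn v'
      have := kσ.lam.pl v' (by omega) (by omega)
      omega
    · by_contra k
      rcases lt_trichotomy v c with j | j | j
      · have := kσ.lam.l1 c v (by omega) e2 (by omega) j
        omega
      · rw [j] at hv; omega
      · have := kσ.lam.l2 c v (by omega) e2 j (by omega)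
        omega
  · right
    have fr := ly.frozen h1 n1 (by omega) (by omega)
    exact born_deep U lx ky h1 n1 h2 kM m1 m2 hd o m3 m4 m5 m6 ty'.1 ty'.2 c1 c2 c3 fr.1 fr.2
      (fun v v1 v2 => by
        have := kσ.lam.pl v (by omega) (by omega)
        by_contra k
        exact ex ⟨v, v1, v2, by omega⟩)

end Sys

end Pool.Agent.Lib.TV19
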